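import Pool.Agent.MP_52bf41_ag.H12.Cartact

/-! Assembly of `Presents` from the module interfaces. -/

open AlgebraicGeometry CategoryTheory Limits IsLocalRing Matrix

namespace Pool.Agent.MP_52bf41_ag.H12

open H1

variable {D : ℕ} {𝒜 : Atlas (BB D) (Option (Fin (D + 1))) (Eqs D)}

/-- Every family over an Artinian ring with fibres of tail type has a standard atlas. -/
def SClassify : Prop :=
  ∀ (A : Type) [CommRing A] [IsLocalRing A] [IsArtinianRing A] [IsAlgClosed (ResidueField A)]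
    (D : ℕ) (F : Fam (Spec (.of A))), IsFamily D F →
    ∃ q t : Fin D → A, Good q ∧ Nonempty (Std F q t)

theorem std_of_cart (hMS : SMS) (R : RepAPI 𝒜) (𝒰 : Univ 𝒜) {A : Type} [CommRing A]
    {F' : Fam (Spec (.of A))} {f : F'.C ⟶ 𝒰.F.C} {x : Spec (.of A) ⟶ 𝒰.X}
    (h : Cart F' 𝒰.F f x) {φ : BB D →+* A} (hφ : x ≫ 𝒰.ι = Spec.map (CommRingCat.ofHom φ))
    {q t : Fin D → A} (hq : Good q) (hm : mat φ = nf q t) :
    ∃ S : Std F' q t, 𝒜.Rep (f ≫ 𝒰.κ) S.O0 fun k => k.elim (S.u none) (yv S.u) := by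
  refine hMS D 𝒜 R A φ q t F' (f ≫ 𝒰.κ) hq hm (hφ ▸ h.1.paste_horiz 𝒰.pb_sq) fun i => ?_
  obtain ⟨y, hy, hs⟩ := 𝒰.sec i
  refine ⟨fun k => pl x le_top (y k), ?_, ?_⟩
  · rw [← Category.assoc, h.2, Category.assoc]
    exact R.pull x le_top hy
  · have h1 := hs.map (pl x (V := ⊤) le_top)
    have h2 : (pl x (V := ⊤) le_top).comp (pb 𝒰.ι) = (pb (𝟙 _)).comp φ := by
      rw [← pb_specMap, ← hφ]
      ext r <;> simp [pl_top, pb_comp]
    rwa [← mat_comp, h2, mat_comp, hm] at h1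

theorem normalize (hNF : SNF) (𝒰 : Univ 𝒜) {A : Type} [CommRing A] [IsLocalRing A]
    [HenselianRing A (maximalIdeal A)] [IsAlgClosed (ResidueField A)]
    {F' : Fam (Spec (.of A))} {f : F'.C ⟶ 𝒰.F.C} {x : Spec (.of A) ⟶ 𝒰.X}
    (h : Cart F' 𝒰.F f x) {φ : BB D →+* A} (hφ : x ≫ 𝒰.ι = Spec.map (CommRingCat.ofHom φ)) :
    ∃ (g : Sq D A) (q t : Fin D → A) (x' : Spec (.of A) ⟶ 𝒰.X) (φ' : BB D →+* A),
      Fix g ∧ Good q ∧ Cart F' 𝒰.F (𝒰.a f (g.map (pb F'.π))) x' ∧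
      x' ≫ 𝒰.ι = Spec.map (CommRingCat.ofHom φ') ∧
      φ'.comp MvPolynomial.C = φ.comp MvPolynomial.C ∧ mat φ' = nf q t := by
  have := 𝒰.oi
  have h1 : PrimeSpectrum.comap φ (closedPoint A) ∈ Tails ℂ D 0 := by
    rw [← 𝒰.range]
    exact ⟨x (closedPoint A), by rw [← Scheme.Hom.comp_apply, hφ]; rfl⟩
  obtain ⟨g, q, t, hg, hq, he⟩ := hNF A D (mat φ) ((closedPoint_mem_tails_iff φ).mp h1)
  obtain ⟨x', φ', h2, h3, h4, h5⟩ := 𝒰.action.cart h hφ hg
  exact ⟨g, q, t, x', φ', hg, hq, h2, h3, h4, h5.trans he⟩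

theorem isAlgClosed_residueField_of_field (k : Type) [Field k] [IsAlgClosed k] :
    IsAlgClosed (ResidueField k) :=
  IsAlgClosed.of_ringEquiv _ _ (RingEquiv.ofBijective (residue k)
    ⟨(residue k).injective, residue_surjective⟩)

theorem henselian_of_artinian (A : Type) [CommRing A] [IsLocalRing A] [IsArtinianRing A] :
    HenselianRing A (maximalIdeal A) := by
  infer_instance

theorem isAlgClosed_residueField_of_finite (A : Type) [CommRing A] [IsLocalRing A] [Algebra ℂ A]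
    [Module.Finite ℂ A] : IsAlgClosed (ResidueField A) := by
  have : Module.Finite ℂ (ResidueField A) :=
    Module.Finite.of_surjective (IsScalarTower.toAlgHom ℂ A (ResidueField A)).toLinearMap
      residue_surjective
  exact IsAlgClosed.of_ringEquiv _ _ (RingEquiv.ofBijective (algebraMap ℂ (ResidueField A))
    IsAlgClosed.algebraMap_bijective_of_isIntegral)

theorem isFamily_univ (hMS : SMS) (hNF : SNF) (hFD : SFlatD) (hSF : SStdFlat) (hSP : SStdPre)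
    (R : RepAPI 𝒜) (𝒰 : Univ 𝒜) : IsFamily D 𝒰.F := by
  have := 𝒰.oi
  have := 𝒜.proper
  have hp : IsProper 𝒰.F.π := MorphismProperty.of_isPullback 𝒰.pb_sq inferInstance
  have hN : IsLocallyNoetherian 𝒰.X := isLocallyNoetherian_of_isOpenImmersion 𝒰.ι
  refine ⟨?_, hp, inferInstance, fun k _ _ F' f s h => ?_⟩
  · have hft : LocallyOfFiniteType (Spec.map (CommRingCat.ofHom (MvPolynomial.C : ℂ →+* BB D))) :=
      (HasRingHomProperty.Spec_iff (P := @LocallyOfFiniteType)).mpr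
        (RingHom.finiteType_algebraMap.mpr inferInstance)
    refine hFD _ _ _ (𝒰.ι ≫ Spec.map (CommRingCat.ofHom (MvPolynomial.C : ℂ →+* BB D)))
      fun A _ _ _ _ x => ?_
    obtain ⟨φ, hφ⟩ := exists_specMap (x ≫ 𝒰.ι)
    obtain ⟨g, q, t, x', φ', -, hq, h2, h3, -, h5⟩ := normalize hNF 𝒰 (𝒰.F.cart_pull x) hφ
    obtain ⟨S, -⟩ := std_of_cart hMS R 𝒰 h2 h3 hq h5
    exact hSF A D _ q t hq ⟨S⟩
  · have := isAlgClosed_residueField_of_field k
    obtain ⟨φ, hφ⟩ := exists_specMap (s ≫ 𝒰.ι)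
    obtain ⟨g, q, t, x', φ', -, hq, h2, h3, -, h5⟩ := normalize hNF 𝒰 h hφ
    obtain ⟨S, -⟩ := std_of_cart hMS R 𝒰 h2 h3 hq h5
    exact hSP k D _ q t hq ⟨S⟩

theorem exists_classifies (hMS : SMS) (hC : SClassify) (hI : SStdIso) (R : RepAPI 𝒜) (𝒰 : Univ 𝒜)
    {A : Type} [CommRing A] [Algebra ℂ A] [IsLocalRing A] [Module.Finite ℂ A]
    (F' : Fam (Spec (.of A))) (h : IsFamily D F') : ∃ f, Classifies 𝒰.ι 𝒰.F F' f := by
  have := 𝒰.oi
  have := isAlgClosed_residueField_of_finite A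
  have : IsArtinianRing A := IsArtinianRing.of_finite ℂ A
  obtain ⟨q, t, hq, hS⟩ := hC A D F' h
  let φ : BB D →+* A := MvPolynomial.eval₂Hom (algebraMap ℂ A) fun v =>
    Sum.elim (fun i => nf q t i v.2) Fin.elim0 v.1
  have hm : mat φ = nf q t := by
    ext i j
    simp [mat, pencil, φ]
  have hr : Set.range (Spec.map (CommRingCat.ofHom φ)) ⊆ Set.range 𝒰.ι := by
    rintro _ ⟨y, rfl⟩
    rw [Subsingleton.elim (α := PrimeSpectrum A) y (closedPoint A), 𝒰.range]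
    refine (closedPoint_mem_tails_iff φ).mpr ?_
    rw [hm, nf_map]
    exact eig_nf (hq.map _)
  let x := IsOpenImmersion.lift 𝒰.ι _ hr
  have hx : x ≫ 𝒰.ι = Spec.map (CommRingCat.ofHom φ) := IsOpenImmersion.lift_fac _ _ _
  obtain ⟨S, -⟩ := std_of_cart hMS R 𝒰 (𝒰.F.cart_pull x) hx hq hm
  obtain ⟨e, he, he'⟩ := hI A D F' _ q t hq hS ⟨S⟩
  refine ⟨e.hom ≫ pullback.fst _ _, x, ⟨?_, fun i => ?_⟩, ?_⟩
  · have := (IsPullback.of_horiz_isIso (fst := e.hom) (snd := F'.π) (f := (𝒰.F.pull x).π)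
      (g := 𝟙 _) ⟨by rw [he, Category.comp_id]⟩).paste_horiz (𝒰.F.cart_pull x).1
    rwa [Category.id_comp] at this
  · rw [← Category.assoc, he', (𝒰.F.cart_pull x).2]
  · rw [hx, pb_specMap]
    ext r
    simp [φ]

section Vec

variable {A B : Type} [CommRing A] [CommRing B] {φ : A →+* B} {u : Option (Fin D) → B}
  {q t : Fin D → A}

theorem Pres.rel (h : Pres φ u q t) (i : Fin D) : (u none - φ (q i)) * u (some i) = φ (t i) := by
  have := (h.2 (H12.rel q t i)).mpr (Ideal.subset_span ⟨i, rfl⟩)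
  simpa [H12.rel, sub_eq_zero] using this

theorem nf_mulVec (h : ∀ i, (u none - φ (q i)) * u (some i) = φ (t i)) (i : Fin D) :
    ((nf q t).map φ *ᵥ yv u) i = u none * u (some i) := by
  classical
  rw [nf_map]
  simp only [nf, mulVec, dotProduct, of_apply, Fin.sum_univ_succ, Fin.cons_zero, Fin.cons_succ, yv,
    mul_one, ite_mul, zero_mul, Finset.sum_ite_eq', Finset.mem_univ, if_true]
  linear_combination -h i

theorem vv_nf (h : ∀ i, (u none - φ (q i)) * u (some i) = φ (t i)) :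
    vv ((nf q t).map φ) (fun k => k.elim (u none) (yv u)) = u none • yv u := by
  funext a
  refine Fin.cases (by simp [vv, yv]) (fun i => ?_) a
  exact nf_mulVec h i

theorem actv_nf (h : ∀ i, (u none - φ (q i)) * u (some i) = φ (t i)) (g : Sq D B) :
    actv g ((nf q t).map φ) (fun k => k.elim (u none) (yv u)) =
      fun k => k.elim (u none * (g *ᵥ yv u) 0) (g *ᵥ yv u) := by
  funext k
  cases k with
  | none =>
    rw [actv, vv_nf h, mulVec_smul]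
    rfl
  | some a => rfl

theorem map_mulVec_yv {B' : Type} [CommRing B'] (ψ : B →+* B') {n : Type}
    (g : Matrix n (Fin (D + 1)) A) (a : n) :
    ψ ((g.map φ *ᵥ yv u) a) = (g.map (ψ.comp φ) *ᵥ yv fun b => ψ (u b)) a := by
  simp [mulVec, dotProduct, Fin.sum_univ_succ, yv]

theorem map_yv {B' : Type} [CommRing B'] (ψ : B →+* B') (a : Fin (D + 1)) :
    ψ (yv u a) = yv (fun b => ψ (u b)) a :=
  Fin.cases (map_one ψ) (fun _ => rfl) a

end Vec

theorem DenseOpen.inf {C : Scheme.{0}} {W W' : C.Opens} (h : DenseOpen W) (h' : DenseOpen W') :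
    DenseOpen (W ⊓ W') := by
  intro V b b' e
  apply h V
  apply h' (V ⊓ W)
  have := congrArg (res (le_of_eq (inf_assoc V W W'))) e
  simpa using this

theorem res_comp_alg {A : Type} [CommRing A] {C : Scheme.{0}} (p : C ⟶ Spec (.of A))
    {U V : C.Opens} (h : V ≤ U) : (res h).comp (alg p U) = alg p V :=
  RingHom.ext fun a => res_alg p h a

section M3

variable {A : Type} [CommRing A] {F : Fam (Spec (.of A))} {q t q' t' : Fin D → A}

/-- The conclusion of `SM3` for a matrix `γ`. -/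
def Rel3 (S : Std F q t) (S' : Std F q' t') (γ : Sq D A) : Prop :=
  ∀ a, res (inf_le_left : S.O0 ⊓ S'.O0 ≤ _) ((γ.map (alg F.π S.O0) *ᵥ yv S.u) a) =
    res inf_le_left ((γ.map (alg F.π S.O0) *ᵥ yv S.u) 0) * res inf_le_right (yv S'.u a)

theorem Rel3.vec {S : Std F q t} {S' : Std F q' t'} {γ : Sq D A} (h : Rel3 S S' γ) {W : F.C.Opens}
    (h1 : W ≤ S.O0) (h2 : W ≤ S'.O0) :
    γ.map (alg F.π W) *ᵥ yv (fun b => res h1 (S.u b)) =
      res h1 ((γ.map (alg F.π S.O0) *ᵥ yv S.u) 0) • yv fun b => res h2 (S'.u b) := by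
  funext a
  have := congrArg (res (le_inf h1 h2)) (h a)
  rw [map_mul, res_res, res_res, res_res, map_mulVec_yv, res_comp_alg, map_yv] at this
  exact this

theorem inj_res {W W' : F.C.Opens} (h : DenseOpen W') :
    Function.Injective (res (inf_le_left : W ⊓ W' ≤ W)) := h W

theorem rel3_inv (hY : SYInd) (hD : SDense) {S : Std F q t} {S' : Std F q' t'} (hq : Good q)
    (hq' : Good q') {γ γ' : Sq D A} (hγ : Col γ) (hγ' : Col γ') (h : Rel3 S S' γ)
    (h' : Rel3 S' S γ') : γ' * γ = 1 := by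
  refine (hY A _ D _ _ q t hq S.pres).2 _ (((γ' * γ).map (alg F.π S.O0) *ᵥ yv S.u) 0)
    (hγ'.mul hγ) ?_
  have h1 := h.vec inf_le_left inf_le_right
  have h2 := h'.vec (W := S.O0 ⊓ S'.O0) inf_le_right inf_le_left
  have h3 : (γ' * γ).map (alg F.π (S.O0 ⊓ S'.O0)) *ᵥ yv (fun b => res inf_le_left (S.u b)) =
      (res inf_le_left ((γ.map (alg F.π S.O0) *ᵥ yv S.u) 0) *
        res inf_le_right ((γ'.map (alg F.π S'.O0) *ᵥ yv S'.u) 0)) •
          yv fun b => res (inf_le_left : S.O0 ⊓ S'.O0 ≤ _) (S.u b) := by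
    rw [Matrix.map_mul, ← mulVec_mulVec, h1, mulVec_smul, h2, smul_smul]
  funext a
  apply inj_res (hD A D F q' t' S' hq')
  rw [Pi.smul_apply, smul_eq_mul, map_mul, map_mulVec_yv, map_mulVec_yv, res_comp_alg, h3, map_yv]
  simp [yv]

theorem rel3_mat (hY : SYInd) (hD : SDense) {S : Std F q t} {S' : Std F q' t'} (hq : Good q)
    (hq' : Good q') {γ : Sq D A} (hγ : Col γ) (h : Rel3 S S' γ)
    (hz : res (inf_le_left : S.O0 ⊓ S'.O0 ≤ _) (S.u none) = res inf_le_right (S'.u none)) :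
    nf q' t' * γ = γ.submatrix Fin.succ Fin.succ * nf q t := by
  rw [← sub_eq_zero]
  ext i a
  refine congrFun ((hY A _ D _ _ q t hq S.pres).1
    ((nf q' t' * γ - γ.submatrix Fin.succ Fin.succ * nf q t) i) ?_) a
  apply inj_res (hD A D F q' t' S' hq')
  have h0 : ∑ a, alg F.π S.O0 ((nf q' t' * γ - γ.submatrix Fin.succ Fin.succ * nf q t) i a) *
      yv S.u a = ((nf q' t' * γ - γ.submatrix Fin.succ Fin.succ * nf q t).map (alg F.π S.O0) *ᵥ
        yv S.u) i := rfl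
  have h1 := h.vec inf_le_left inf_le_right
  have r1 : ∀ i, (res (inf_le_left : S.O0 ⊓ S'.O0 ≤ _) (S.u none) - alg F.π _ (q i)) *
      res inf_le_left (S.u (some i)) = alg F.π _ (t i) := fun i => by
    simpa using congrArg (res (inf_le_left : S.O0 ⊓ S'.O0 ≤ _)) (S.pres.rel i)
  have r2 : ∀ i, (res (inf_le_right : S.O0 ⊓ S'.O0 ≤ _) (S'.u none) - alg F.π _ (q' i)) *
      res inf_le_right (S'.u (some i)) = alg F.π _ (t' i) := fun i => by
    simpa using congrArg (res (inf_le_right : S.O0 ⊓ S'.O0 ≤ _)) (S'.pres.rel i)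
  have h2 := congrFun h1 i.succ
  rw [h0, map_zero, map_mulVec_yv, res_comp_alg, Matrix.map_sub _ (map_sub _), sub_mulVec,
    Matrix.map_mul, Matrix.map_mul, ← mulVec_mulVec, ← mulVec_mulVec, h1, mulVec_smul,
    Pi.sub_apply, Pi.smul_apply, nf_mulVec (u := fun b => res inf_le_right (S'.u b)) r2,
    funext (nf_mulVec (u := fun b => res inf_le_left (S.u b)) r1), sub_eq_zero]
  have h3 : γ i.succ 0 = 0 := by rw [hγ]; simp [Matrix.one_apply_ne (Fin.succ_ne_zero i)]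
  simp only [mulVec, dotProduct, Fin.sum_univ_succ, map_apply, h3, map_zero, zero_mul, zero_add, yv,
    Fin.cons_succ, Pi.smul_apply, smul_eq_mul, submatrix_apply] at h2 ⊢
  rw [← hz]
  simp only [mul_left_comm _ (res _ (S.u none)), ← Finset.mul_sum]
  rw [h2]

end M3

theorem differ (hMS : SMS) (hNF : SNF) (hY : SYInd) (hD : SDense) (hM : SM3) (R : RepAPI 𝒜)
    (𝒰 : Univ 𝒜) {A : Type} [CommRing A] [Algebra ℂ A] [IsLocalRing A] [Module.Finite ℂ A]
    (F' : Fam (Spec (.of A))) (f f' : F'.C ⟶ 𝒰.F.C) (h : Classifies 𝒰.ι 𝒰.F F' f)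
    (h' : Classifies 𝒰.ι 𝒰.F F' f') : Differ 𝒰.F 𝒰.a F'.π f f' := by
  have := 𝒰.oi
  have hκ : IsOpenImmersion 𝒰.κ := MorphismProperty.of_isPullback 𝒰.pb_sq.flip inferInstance
  have := isAlgClosed_residueField_of_finite A
  have : IsArtinianRing A := IsArtinianRing.of_finite ℂ A
  have ha := 𝒰.action
  obtain ⟨x, hx, hc⟩ := h
  obtain ⟨x', hx', hc'⟩ := h'
  obtain ⟨φ, hφ⟩ := exists_specMap (x ≫ 𝒰.ι)
  obtain ⟨φ', hφ'⟩ := exists_specMap (x' ≫ 𝒰.ι)
  have hcc : φ'.comp MvPolynomial.C = φ.comp MvPolynomial.C := by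
    rw [← hc', hφ, hφ', pb_specMap, pb_specMap] at hc
    exact RingHom.ext fun r => pb_id_bijective.1 (RingHom.congr_fun hc r).symm
  obtain ⟨g, q, t, x1, φ1, hg, hq, c1, e1, k1, m1⟩ := normalize hNF 𝒰 hx hφ
  obtain ⟨g', q', t', x1', φ1', hg', hq', c1', e1', k1', m1'⟩ := normalize hNF 𝒰 hx' hφ'
  obtain ⟨S, hS⟩ := std_of_cart hMS R 𝒰 c1 e1 hq m1
  obtain ⟨S', hS'⟩ := std_of_cart hMS R 𝒰 c1' e1' hq' m1'
  set f1 := 𝒰.a f (g.map (pb F'.π)) with hf1
  set f1' := 𝒰.a f' (g'.map (pb F'.π)) with hf1'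
  have hb : ∀ {c : F'.C ⟶ 𝒰.F.C} {y : Spec (.of A) ⟶ 𝒰.X} {ψ : BB D →+* A}, Cart F' 𝒰.F c y →
      y ≫ 𝒰.ι = Spec.map (CommRingCat.ofHom ψ) →
      c ≫ 𝒰.κ ≫ 𝒜.π = F'.π ≫ Spec.map (CommRingCat.ofHom ψ) := fun hc hy => by
    rw [𝒰.pb_sq.w, ← Category.assoc, hc.1.w, Category.assoc, hy]
  have hrep : ∀ {δ : Sq D A}, Fix δ → ∀ {W : F'.C.Opens} (hW : W ≤ S.O0),
      𝒜.Rep (𝒰.a f1 (δ.map (pb F'.π)) ≫ 𝒰.κ) W fun k => k.elim
        (res hW (S.u none) * (δ.map (alg F'.π W) *ᵥ yv fun b => res hW (S.u b)) 0)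
        (δ.map (alg F'.π W) *ᵥ yv fun b => res hW (S.u b)) := by
    intro δ hδ W hW
    have h1 := 𝒰.rep f1 _ W _ (hδ.map (pb F'.π)) (R.restr hW hS)
    have h2 : alg (f1 ≫ 𝒰.κ ≫ 𝒜.π) W = (alg F'.π W).comp φ1 := by
      rw [hb c1 e1]
      exact RingHom.ext fun r => alg_spec _ _ _ _
    have h3 : (fun k : Option (Fin (D + 1)) => res hW (k.elim (S.u none) (yv S.u))) =
        fun k => k.elim (res hW (S.u none)) (yv fun b => res hW (S.u b)) := by
      funext k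
      cases k with
      | none => rfl
      | some a => exact map_yv _ a
    have r1 : ∀ i, (res hW (S.u none) - alg F'.π _ (q i)) * res hW (S.u (some i)) =
        alg F'.π _ (t i) := fun i => by simpa using congrArg (res hW) (S.pres.rel i)
    rwa [h2, mat_comp, m1, h3, actv_nf (u := fun b => res hW (S.u b)) r1, Matrix.map_map] at h1
  refine existsUnique_of_exists_of_unique ?_ ?_
  · obtain ⟨hz, γ, hγ, r⟩ := hM A D F' q t q' t' S S' hq hq'
    obtain ⟨-, γ', hγ', r'⟩ := hM A D F' q' t' q t S' S hq' hq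
    have hγF : Fix γ := fix_of_inP ⟨rel3_inv hY hD hq' hq hγ' hγ r' r, hγ⟩
    obtain ⟨x2, φ2, c2, e2, k2, m2⟩ := ha.cart c1 e1 hγF
    have hφ2 : φ2 = φ1' := by
      refine bb_ext (by rw [k2, k1, k1', hcc]) ?_
      rw [m2, m1, m1', ← rel3_mat hY hD hq hq' hγ r hz, Matrix.mul_assoc, hγF.mul_inv,
        Matrix.mul_one]
    have key : 𝒰.a f1 (γ.map (pb F'.π)) = f1' := by
      rw [← cancel_mono 𝒰.κ]
      have h1 := hrep hγF (inf_le_left : S.O0 ⊓ S'.O0 ≤ _)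
      have h2 := R.restr (inf_le_right : S.O0 ⊓ S'.O0 ≤ _) hS'
      refine R.extDense ?_ ((hD A D F' q t S hq).inf (hD A D F' q' t' S' hq'))
        (R.ofCross h1 (R.unimod h2) ?_) h2
      · rw [Category.assoc, Category.assoc, hb c2 e2, hb c1' e1', hφ2]
      · rw [Rel3.vec r inf_le_left inf_le_right, hz]
        have h0 : yv (fun b => res (inf_le_right : S.O0 ⊓ S'.O0 ≤ _) (S'.u b)) 0 = 1 := rfl
        rintro (_ | k) (_ | l) <;>
          simp only [Option.elim, Pi.smul_apply, smul_eq_mul, map_yv, h0] <;> ring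
    refine ⟨g'⁻¹ * (γ * g), hg'.inv.mul (hγF.mul hg), ?_⟩
    beta_reduce
    rw [← ha.mulA _ _ (hγF.mul hg) hg'.inv, ← ha.mulA _ _ hg hγF, ← hf1, key, hf1',
      ha.cancelA _ _ hg']
  · rintro g1 g2 ⟨h1, e1⟩ ⟨h2, e2⟩
    beta_reduce at e1 e2
    have hδ : Fix (g * (g2⁻¹ * (g1 * g⁻¹))) := hg.mul (h2.inv.mul (h1.mul hg.inv))
    have h3 : 𝒰.a f1 ((g * (g2⁻¹ * (g1 * g⁻¹))).map (pb F'.π)) = f1 := by
      rw [← ha.mulA _ _ (h2.inv.mul (h1.mul hg.inv)) hg, ← ha.mulA _ _ (h1.mul hg.inv) h2.inv,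
        ← ha.mulA _ _ hg.inv h1, hf1, ha.cancelA _ _ hg, ← e1, e2, ha.cancelA _ _ h2]
    have h4 := hrep hδ le_rfl
    rw [h3] at h4
    have h5 := R.cross h4 hS
    simp only [res_self] at h5
    have h6 := (hY A _ D _ _ q t hq S.pres).2 _
      (((g * (g2⁻¹ * (g1 * g⁻¹))).map (alg F'.π S.O0) *ᵥ yv S.u) 0) hδ.2
      (funext fun a => by simpa [yv] using h5 (some a) (some 0))
    have h7 : g2 * (g⁻¹ * (g * (g2⁻¹ * (g1 * g⁻¹))) * g) = g1 := by
      rw [← Matrix.mul_assoc g⁻¹, hg.inv_mul, Matrix.one_mul, Matrix.mul_assoc, Matrix.mul_assoc,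
        hg.inv_mul, Matrix.mul_one, ← Matrix.mul_assoc, h2.mul_inv, Matrix.one_mul]
    rw [← h7, h6, Matrix.mul_one, hg.inv_mul, Matrix.mul_one]

theorem presents (hP : SProj) (hR : SRep) (hU : SUniv) (hMS : SMS) (hNF : SNF) (hFD : SFlatD)
    (hSF : SStdFlat) (hSP : SStdPre) (hC : SClassify) (hI : SStdIso) (hY : SYInd) (hD : SDense)
    (hM : SM3) (D : ℕ) : ∃ (X : Scheme.{0}) (ι : X ⟶ Spec (.of (BB D))),
      Presents ι ∧ Set.range ι = Tails ℂ D 0 := by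
  obtain ⟨𝒜⟩ := hP (BB D) _ (Eqs D) eqs_homogeneous
  have R := hR _ _ _ eqs_homogeneous 𝒜
  obtain ⟨𝒰⟩ := hU D 𝒜 R
  exact ⟨𝒰.X, 𝒰.ι, ⟨𝒰.oi, 𝒰.F, 𝒰.a, isFamily_univ hMS hNF hFD hSF hSP R 𝒰, 𝒰.action,
    fun A _ _ _ _ F' => ⟨exists_classifies hMS hC hI R 𝒰 F',
      differ hMS hNF hY hD hM R 𝒰 F'⟩⟩, 𝒰.range⟩

end Pool.Agent.MP_52bf41_ag.H12
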