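import Pool.Agent.MP_52bf41_ag.H12.Defs
import Pool.Agent.MP_52bf41_ag.H1.Good

/-! Internal definitions and a small API for functions on open subsets of schemes. -/

open AlgebraicGeometry CategoryTheory Limits

namespace Pool.Agent.MP_52bf41_ag.H12

open H1

section Res

variable {C T T' : Scheme.{0}}

@[simp] theorem res_res {U V W : C.Opens} (h : V ≤ U) (h' : W ≤ V) (b : Γ(C, U)) :
    res h' (res h b) = res (h'.trans h) b := by
  simp only [res, ← CommRingCat.comp_apply, ← Functor.map_comp]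
  rfl

@[simp] theorem res_self {U : C.Opens} (h : U ≤ U) (b : Γ(C, U)) : res h b = b := by
  simp [res]

theorem basicOpen_res {U V : C.Opens} (h : V ≤ U) (b : Γ(C, U)) :
    C.basicOpen (res h b) = V ⊓ C.basicOpen b :=
  Scheme.basicOpen_res _ _ (homOfLE h).op

theorem mem_basicOpen_res {U V : C.Opens} (h : V ≤ U) (b : Γ(C, U)) {x : C} (hx : x ∈ V) :
    x ∈ C.basicOpen (res h b) ↔ x ∈ C.basicOpen b := by
  rw [basicOpen_res]
  exact ⟨fun h => h.2, fun h => ⟨hx, h⟩⟩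

/-- A function is a unit as soon as it vanishes nowhere. -/
theorem isUnit_of_le_basicOpen {U V : C.Opens} (h : V ≤ U) (b : Γ(C, U))
    (hb : V ≤ C.basicOpen b) : IsUnit (res h b) := by
  have h1 := RingedSpace.isUnit_res_basicOpen C.toRingedSpace b
  have h2 := h1.map (res hb)
  have : res hb (res (C.basicOpen_le b) b) = res h b := res_res _ _ _
  rw [← this]
  exact h2

theorem isUnit_of_basicOpen {U : C.Opens} (b : Γ(C, U)) (hb : U ≤ C.basicOpen b) : IsUnit b := by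
  simpa using isUnit_of_le_basicOpen le_rfl b hb

theorem basicOpen_of_isUnit {U : C.Opens} {b : Γ(C, U)} (hb : IsUnit b) : C.basicOpen b = U :=
  C.basicOpen_of_isUnit hb

theorem basicOpen_of_isNilpotent {U : C.Opens} {b : Γ(C, U)} (hb : IsNilpotent b) :
    C.basicOpen b = ⊥ := by
  obtain ⟨n, hn⟩ := hb
  rw [← C.basicOpen_pow b (Nat.succ_pos n), pow_succ, hn, zero_mul, Scheme.basicOpen_zero]

/-- The functions vanishing at `x` form an ideal. -/
theorem not_mem_basicOpen_add {U : C.Opens} {b b' : Γ(C, U)} {x : C}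
    (h : x ∉ C.basicOpen b) (h' : x ∉ C.basicOpen b') : x ∉ C.basicOpen (b + b') := fun hx =>
  (C.basicOpen_add_le b b' hx).elim h h'

theorem not_mem_basicOpen_mul {U : C.Opens} {b : Γ(C, U)} (b' : Γ(C, U)) {x : C}
    (h : x ∉ C.basicOpen b) : x ∉ C.basicOpen (b' * b) := fun hx => by
  rw [Scheme.basicOpen_mul] at hx
  exact h hx.2

theorem mem_basicOpen_mul {U : C.Opens} {b b' : Γ(C, U)} {x : C} :
    x ∈ C.basicOpen (b * b') ↔ x ∈ C.basicOpen b ∧ x ∈ C.basicOpen b' := by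
  rw [Scheme.basicOpen_mul]
  rfl

/-- Equality of functions is local. -/
theorem eq_of_cover {ι : Type*} {V : C.Opens} (U : ι → C.Opens) (hU : ∀ i, U i ≤ V)
    (hc : V ≤ iSup U) {b b' : Γ(C, V)} (h : ∀ i, res (hU i) b = res (hU i) b') : b = b' :=
  C.sheaf.eq_of_locally_eq' U V (fun i => homOfLE (hU i)) hc b b' h

theorem eq_of_local {V : C.Opens} {b b' : Γ(C, V)}
    (h : ∀ x ∈ V, ∃ (W : C.Opens) (hW : W ≤ V), x ∈ W ∧ res hW b = res hW b') : b = b' := by
  choose W hW hx he using h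
  refine eq_of_cover (fun x : V => W x.1 x.2) (fun x => hW _ _) (fun x hx' => ?_) fun x => he _ _
  exact TopologicalSpace.Opens.mem_iSup.mpr ⟨⟨x, hx'⟩, hx _ _⟩

/-- Gluing of functions. -/
theorem exists_glue {ι : Type*} {V : C.Opens} (U : ι → C.Opens) (hU : ∀ i, U i ≤ V)
    (hc : V ≤ iSup U) (b : ∀ i, Γ(C, U i))
    (h : ∀ i j, res (inf_le_left : U i ⊓ U j ≤ _) (b i) = res inf_le_right (b j)) :
    ∃ c : Γ(C, V), ∀ i, res (hU i) c = b i :=
  (C.sheaf.existsUnique_gluing' U V (fun i => homOfLE (hU i)) hc b h).exists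

theorem exists_glue₂ {V U₁ U₂ : C.Opens} (h₁ : U₁ ≤ V) (h₂ : U₂ ≤ V) (hc : V ≤ U₁ ⊔ U₂)
    (b₁ : Γ(C, U₁)) (b₂ : Γ(C, U₂))
    (h : res (inf_le_left : U₁ ⊓ U₂ ≤ _) b₁ = res inf_le_right b₂) :
    ∃ c : Γ(C, V), res h₁ c = b₁ ∧ res h₂ c = b₂ := by
  obtain ⟨c, hc⟩ := exists_glue (V := V) (fun i : Bool => Bool.rec U₁ U₂ i)
    (fun i => Bool.rec h₁ h₂ i) (hc.trans (sup_le (le_iSup (fun i : Bool => (Bool.rec U₁ U₂ i : C.Opens)) false)
      (le_iSup (fun i : Bool => (Bool.rec U₁ U₂ i : C.Opens)) true)))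
    (fun i => Bool.rec b₁ b₂ i) (by
      rintro (_ | _) (_ | _)
      · rfl
      · exact h
      · have := congrArg (res (le_of_eq (inf_comm U₂ U₁))) h
        simpa using this.symm
      · rfl)
  exact ⟨c, hc false, hc true⟩

/-- Pull-back of functions along a morphism. -/
noncomputable def pl (c : T ⟶ C) {U : C.Opens} {V : T.Opens} (h : V ≤ c ⁻¹ᵁ U) :
    Γ(C, U) →+* Γ(T, V) :=
  (c.appLE U V h).hom

@[simp] theorem res_pl (c : T ⟶ C) {U : C.Opens} {V V' : T.Opens} (h : V ≤ c ⁻¹ᵁ U)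
    (h' : V' ≤ V) (b : Γ(C, U)) : res h' (pl c h b) = pl c (h'.trans h) b := by
  simp only [res, pl, ← CommRingCat.comp_apply, Scheme.Hom.appLE_map]

@[simp] theorem pl_res (c : T ⟶ C) {U U' : C.Opens} {V : T.Opens} (h : V ≤ c ⁻¹ᵁ U)
    (h' : U ≤ U') (b : Γ(C, U')) :
    pl c h (res h' b) = pl c (h.trans (c.preimage_mono h')) b := by
  simp only [res, pl, ← CommRingCat.comp_apply, Scheme.Hom.map_appLE]

theorem pl_pl (c : T ⟶ C) (c' : T' ⟶ T) {U : C.Opens} {V : T.Opens} {W : T'.Opens}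
    (h : V ≤ c ⁻¹ᵁ U) (h' : W ≤ c' ⁻¹ᵁ V) (b : Γ(C, U)) :
    pl c' h' (pl c h b) = pl (c' ≫ c) (h'.trans (c'.preimage_mono h)) b := by
  simp only [pl, ← CommRingCat.comp_apply, Scheme.Hom.appLE_comp_appLE]

theorem pl_congr {c c' : T ⟶ C} (e : c = c') {U : C.Opens} {V : T.Opens} (h : V ≤ c ⁻¹ᵁ U)
    (b : Γ(C, U)) : pl c h b = pl c' (e ▸ h) b := by
  subst e
  rfl

@[simp] theorem pl_id {U V : C.Opens} (h : V ≤ (𝟙 C : C ⟶ C) ⁻¹ᵁ U) (b : Γ(C, U)) :
    pl (𝟙 C) h b = res h b := by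
  simp only [pl, res, Scheme.Hom.appLE, Scheme.Hom.id_app]
  rfl

theorem pl_top (c : T ⟶ C) (b : Γ(C, ⊤)) : pl c (V := ⊤) le_top b = c.appTop.hom b := by
  simp [pl, Scheme.Hom.appLE]

theorem basicOpen_pl (c : T ⟶ C) {U : C.Opens} {V : T.Opens} (h : V ≤ c ⁻¹ᵁ U) (b : Γ(C, U)) :
    T.basicOpen (pl c h b) = V ⊓ c ⁻¹ᵁ C.basicOpen b := by
  rw [Scheme.preimage_basicOpen]
  exact Scheme.basicOpen_res _ _ (homOfLE h).op

variable {A A' : Type} [CommRing A] [CommRing A']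

/-- The structure map on an open subset of a scheme over `A`. -/
noncomputable def alg (p : C ⟶ Spec (.of A)) (O : C.Opens) : A →+* Γ(C, O) :=
  (res le_top).comp (pb p)

@[simp] theorem res_alg (p : C ⟶ Spec (.of A)) {U V : C.Opens} (h : V ≤ U) (a : A) :
    res h (alg p U a) = alg p V a := res_res _ _ _

theorem alg_top (p : C ⟶ Spec (.of A)) (a : A) : alg p ⊤ a = pb p a := res_self _ _

theorem pb_comp (c : T ⟶ C) (p : C ⟶ Spec (.of A)) (a : A) :
    pb (c ≫ p) a = c.appTop.hom (pb p a) := by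
  simp [pb]

@[simp] theorem pl_alg (c : T ⟶ C) (p : C ⟶ Spec (.of A)) {U : C.Opens} {V : T.Opens}
    (h : V ≤ c ⁻¹ᵁ U) (a : A) : pl c h (alg p U a) = alg (c ≫ p) V a := by
  simp only [alg, RingHom.comp_apply, pl_res, pb_comp, ← pl_top, res_pl]

theorem pb_spec (p : C ⟶ Spec (.of A')) (φ : A →+* A') (a : A) :
    pb (p ≫ Spec.map (CommRingCat.ofHom φ)) a = pb p (φ a) := by
  rw [pb_comp, pb, pb, RingHom.comp_apply, RingHom.comp_apply, ← CommRingCat.comp_apply,
    ← CommRingCat.comp_apply, ← CommRingCat.comp_apply, ← Category.assoc,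
    ← Scheme.ΓSpecIso_inv_naturality]
  rfl

theorem alg_spec (p : C ⟶ Spec (.of A')) (φ : A →+* A') (U : C.Opens) (a : A) :
    alg (p ≫ Spec.map (CommRingCat.ofHom φ)) U a = alg p U (φ a) := by
  simp only [alg, RingHom.comp_apply, pb_spec]

/-- A morphism to an affine scheme is determined by its ring map. -/
theorem hom_ext_pb {p p' : C ⟶ Spec (.of A)} (h : pb p = pb p') : p = p' := by
  apply ext_of_isAffine
  rw [← cancel_epi (Scheme.ΓSpecIso (.of A)).inv]
  exact CommRingCat.hom_ext h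

theorem exists_pb (φ : A →+* Γ(C, ⊤)) : ∃ p : C ⟶ Spec (.of A), pb p = φ := by
  refine ⟨C.toSpecΓ ≫ Spec.map (CommRingCat.ofHom φ), RingHom.ext fun a => ?_⟩
  rw [pb_spec (A' := Γ(C, ⊤))]
  have := Scheme.toSpecΓ_appTop C
  simp only [pb, RingHom.comp_apply]
  erw [this]
  exact (Scheme.ΓSpecIso Γ(C, ⊤)).inv_hom_id_apply _

theorem pb_id_bijective : Function.Bijective (pb (𝟙 (Spec (.of A)))) := by
  have : pb (𝟙 (Spec (.of A))) = (Scheme.ΓSpecIso (.of A)).inv.hom := by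
    ext a
    simp [pb]
  rw [this]
  exact (Scheme.ΓSpecIso (.of A)).symm.commRingCatIsoToRingEquiv.bijective

/-- Evaluation of a function at an `A`-valued point. -/
noncomputable def ev (τ : Spec (.of A) ⟶ C) {O : C.Opens} (h : ⊤ ≤ τ ⁻¹ᵁ O) : Γ(C, O) →+* A :=
  (Scheme.ΓSpecIso (.of A)).hom.hom.comp (pl τ h)

theorem pb_ev (τ : Spec (.of A) ⟶ C) {O : C.Opens} (h : ⊤ ≤ τ ⁻¹ᵁ O) (b : Γ(C, O)) :
    pb (𝟙 _) (ev τ h b) = pl τ h b := by
  simp [ev, pb]

@[simp] theorem ev_res (τ : Spec (.of A) ⟶ C) {O O' : C.Opens} (h : ⊤ ≤ τ ⁻¹ᵁ O) (h' : O ≤ O')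
    (b : Γ(C, O')) : ev τ h (res h' b) = ev τ (h.trans (τ.preimage_mono h')) b := by
  simp [ev]

theorem ev_alg (τ : Spec (.of A) ⟶ C) {p : C ⟶ Spec (.of A)} (hp : τ ≫ p = 𝟙 _) {O : C.Opens}
    (h : ⊤ ≤ τ ⁻¹ᵁ O) (a : A) : ev τ h (alg p O a) = a := by
  apply pb_id_bijective.1
  rw [pb_ev, pl_alg, hp, alg_top]

theorem top_le_preimage [IsLocalRing A] (τ : Spec (.of A) ⟶ C) {O : C.Opens}
    (h : τ (IsLocalRing.closedPoint A) ∈ O) : ⊤ ≤ τ ⁻¹ᵁ O := fun x _ =>
  ((IsLocalRing.specializes_closedPoint x).map τ.continuous).mem_open O.isOpen h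

theorem isUnit_ev_iff [IsLocalRing A] (τ : Spec (.of A) ⟶ C) {O : C.Opens} (h : ⊤ ≤ τ ⁻¹ᵁ O)
    (b : Γ(C, O)) : IsUnit (ev τ h b) ↔ τ (IsLocalRing.closedPoint A) ∈ C.basicOpen b := by
  have h1 : IsUnit (ev τ h b) ↔ IsUnit (pl τ h b) := by
    rw [← pb_ev]
    exact (isUnit_map_iff (RingEquiv.ofBijective _ (pb_id_bijective (A := A))) _).symm
  rw [h1]
  constructor
  · intro hu
    have := basicOpen_of_isUnit hu
    rw [basicOpen_pl] at this
    exact (this.ge (Set.mem_univ (IsLocalRing.closedPoint A))).2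
  · intro hx
    refine isUnit_of_basicOpen _ ?_
    rw [basicOpen_pl]
    exact le_inf le_rfl (top_le_preimage τ hx)

/-- `φ` makes `S` the localisation of `R` away from `g`. -/
def IsAway {R S : Type} [CommRing R] [CommRing S] (φ : R →+* S) (g : R) : Prop :=
  @IsLocalization.Away R _ g S _ φ.toAlgebra

theorem isAway_res {U V : C.Opens} (hU : IsAffineOpen U) (g : Γ(C, U)) (h : V ≤ U)
    (hV : V = C.basicOpen g) : IsAway (res h) g := by
  subst hV
  exact hU.isLocalization_basicOpen g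

/-- Restriction to `W` is injective on all open sets (`W` is schematically dense). -/
def DenseOpen (W : C.Opens) : Prop :=
  ∀ V : C.Opens, Function.Injective (res (inf_le_left : V ⊓ W ≤ V))

end Res

section Pull

variable {T T' : Scheme.{0}}

/-- Base change of a family. -/
noncomputable def Fam.pull (F : Fam T) (s : T' ⟶ T) : Fam T' where
  C := pullback F.π s
  π := pullback.snd F.π s
  σ i := pullback.lift (s ≫ F.σ i) (𝟙 _) (by simp [F.sec])
  sec i := pullback.lift_snd _ _ _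

theorem Fam.cart_pull (F : Fam T) (s : T' ⟶ T) : Cart (F.pull s) F (pullback.fst F.π s) s :=
  ⟨IsPullback.of_hasPullback _ _, fun _ => pullback.lift_fst _ _ _⟩

end Pull

section Std

open Polynomial in
/-- The denominators of the charts around the poles. -/
noncomputable def gpol {A : Type} [CommRing A] {D : ℕ} (q t : Fin D → A) : Option (Fin D) → A[X]
  | none => ∏ i, (1 - C (q i) * X)
  | some i => ∏ l ∈ Finset.univ.erase i, (C (q i - q l) + C (t i) * X)

open MvPolynomial in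
/-- The equations `(z - q_i) w_i = t_i` of the main chart (`z = X none`, `w_i = X (some i)`). -/
noncomputable def rel {A : Type} [CommRing A] {D : ℕ} (q t : Fin D → A) (i : Fin D) :
    MvPolynomial (Option (Fin D)) A :=
  (X none - C (q i)) * X (some i) - C (t i)

open MvPolynomial in
/-- The function on the main chart cutting out the overlap with a pole chart. -/
noncomputable def hpol {A : Type} [CommRing A] {D : ℕ} (q : Fin D → A) :
    Option (Fin D) → MvPolynomial (Option (Fin D)) A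
  | none => X none * ∏ i, (X none - C (q i))
  | some i => X (some i) * ∏ l ∈ Finset.univ.erase i, (X none - C (q l))

variable {A : Type} [CommRing A] {D : ℕ}

/-- The points `q_i, 0, 1` are everywhere distinct. -/
def Good (q : Fin D → A) : Prop :=
  (∀ i l, i ≠ l → IsUnit (q i - q l)) ∧ ∀ i, IsUnit (q i) ∧ IsUnit (q i - 1)

/-- `B = A[z, w]/((z - q_i) w_i - t_i)`. -/
def Pres {B : Type} [CommRing B] (φ : A →+* B) (u : Option (Fin D) → B) (q t : Fin D → A) : Prop :=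
  Function.Surjective (MvPolynomial.eval₂Hom φ u) ∧
    ∀ p, MvPolynomial.eval₂Hom φ u p = 0 ↔ p ∈ Ideal.span (Set.range (rel q t))

/-- The element `c + ∑ u_a P_a(u_a)`. -/
noncomputable def comb {B ι : Type} [CommRing B] [Fintype ι] (φ : A →+* B) (u : ι → B) (c : A)
    (P : ι → Polynomial A) : B :=
  φ c + ∑ a, u a * (P a).eval₂ φ (u a)

/-- The standard atlas of the curve `(z - q_i) w_i = t_i` in `(P^1)^(D+1)`. -/
structure Std (F : Fam (Spec (.of A))) (q t : Fin D → A) where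
  O0 : F.C.Opens
  O : Option (Fin D) → F.C.Opens
  aff0 : IsAffineOpen O0
  aff : ∀ a, IsAffineOpen (O a)
  cover : O0 ⊔ iSup O = ⊤
  disj : ∀ a b, a ≠ b → O a ⊓ O b ≤ O0
  u : Option (Fin D) → Γ(F.C, O0)
  s : ∀ a, Γ(F.C, O a)
  pres : Pres (alg F.π O0) u q t
  loc : ∀ a, IsAway (Polynomial.eval₂RingHom (alg F.π (O a)) (s a)) (gpol q t a)
  inter0 : ∀ a, O0 ⊓ O a = F.C.basicOpen (MvPolynomial.eval₂Hom (alg F.π O0) u (hpol q a))
  inter : ∀ a, O0 ⊓ O a = F.C.basicOpen (s a)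
  us : ∀ a, res (inf_le_left : O0 ⊓ O a ≤ _) (u a) * res inf_le_right (s a) = 1
  h0 : ⊤ ≤ F.σ 0 ⁻¹ᵁ O0
  h1 : ⊤ ≤ F.σ 1 ⁻¹ᵁ O0
  h2 : ⊤ ≤ F.σ 2 ⁻¹ᵁ O none
  e0 : ev (F.σ 0) h0 (u none) = 0
  e1 : ev (F.σ 1) h1 (u none) = 1
  e2 : ev (F.σ 2) h2 (s none) = 0

/-- The vector `(1, w_1, ..., w_D)`. -/
def yv {B : Type} [CommRing B] (u : Option (Fin D) → B) : Fin (D + 1) → B :=
  Fin.cons 1 fun i => u (some i)

/-- The normal form `[t | diag q]`. -/
def nf (q t : Fin D → A) : Matrix (Fin D) (Fin (D + 1)) A :=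
  Matrix.of fun i => Fin.cons (t i) fun l => if l = i then q i else 0

end Std

section Poles

variable {A : Type} [CommRing A] {C : Scheme.{0}}

/-- `s` is a local parameter at `x` cutting out a section of `p`. -/
structure Par (p : C ⟶ Spec (.of A)) (x : C) (U : C.Opens) (s : Γ(C, U)) : Prop where
  aff : IsAffineOpen U
  mem : x ∈ U
  zero : ∀ y, y ∈ C.basicOpen s ↔ y ∈ U ∧ y ≠ x
  reg : s ∈ nonZeroDivisors Γ(C, U)
  bij : Function.Bijective ((Ideal.Quotient.mk (Ideal.span {s})).comp (alg p U))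

/-- Functions `u a` with a simple pole at `x a` and regular elsewhere. -/
structure Poles (p : C ⟶ Spec (.of A)) (ι : Type) where
  x : ι → C
  U : ι → C.Opens
  s : ∀ a, Γ(C, U a)
  par : ∀ a, Par p (x a) (U a) (s a)
  ne : ∀ a b, a ≠ b → x b ∉ U a
  V : ι → C.Opens
  hV : ∀ a y, y ∈ V a ↔ y ≠ x a
  u : ∀ a, Γ(C, V a)
  v : ∀ a, Γ(C, U a)
  pole : ∀ a, res (inf_le_right : U a ⊓ V a ≤ _) (u a) * res inf_le_left (s a) =
    res inf_le_left (v a)
  unit : ∀ a, x a ∈ C.basicOpen (v a)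
  O0 : C.Opens
  hO0 : ∀ y, y ∈ O0 ↔ ∀ a, y ≠ x a

theorem Poles.O0_le {p : C ⟶ Spec (.of A)} {ι : Type} (P : Poles p ι) (a : ι) : P.O0 ≤ P.V a :=
  fun y hy => (P.hV a y).mpr ((P.hO0 y).mp hy a)

theorem Poles.U_le {p : C ⟶ Spec (.of A)} {ι : Type} (P : Poles p ι) {a b : ι} (h : a ≠ b) :
    P.U a ≤ P.V b :=
  fun y hy => (P.hV b y).mpr fun e => P.ne a b h (e ▸ hy)

/-- The functions `u a` on the complement of all poles. -/
noncomputable def Poles.u0 {p : C ⟶ Spec (.of A)} {ι : Type} (P : Poles p ι) (a : ι) :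
    Γ(C, P.O0) :=
  res (P.O0_le a) (P.u a)

/-- Every irreducible closed subset is a component or a point. -/
def Dim1 (α : Type) [TopologicalSpace α] : Prop :=
  ∀ Z : Set α, IsIrreducible Z → IsClosed Z → Z ∈ irreducibleComponents α ∨ ∃ y, Z = {y}

/-- The combinatorial skeleton of a curve with rational tails: main component `M` with the
markings `m`, a point `d i` on each tail `T i` (or on `M`), and its foot `ξ i` on `M`. -/
structure Skel (α : Type) [TopologicalSpace α] (m : Fin 3 → α) (D : ℕ) where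
  M : Set α
  T : Fin D → Set α
  tail : Fin D → Prop
  d : Fin D → α
  ξ : Fin D → α
  dim1 : Dim1 α
  irrM : IsIrreducible M
  clM : IsClosed M
  mM : ∀ l, m l ∈ M
  comps : ∀ Z ∈ irreducibleComponents α, Z = M ∨ ∃ i, tail i ∧ Z = T i
  irrT : ∀ i, tail i → IsIrreducible (T i)
  clT : ∀ i, tail i → IsClosed (T i)
  dT : ∀ i, tail i → d i ∈ T i
  ξT : ∀ i, tail i → ξ i ∈ T i
  dM : ∀ i, tail i → d i ∉ M
  mT : ∀ i, tail i → m 2 ∉ T i
  nt : ∀ i, ¬ tail i → ξ i = d i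
  ξM : ∀ i, ξ i ∈ M
  ξinj : Function.Injective ξ
  dinj : Function.Injective d
  minj : Function.Injective m
  ξm : ∀ i l, ξ i ≠ m l
  cld : ∀ i, IsClosed {d i}
  clξ : ∀ i, IsClosed {ξ i}
  clm : ∀ l, IsClosed {m l}

end Poles

section Atlas

/-- The standard atlas of `Proj B[y]/(E)`. -/
structure Atlas (B : Type) [CommRing B] (κ : Type) (E : Set (MvPolynomial κ B)) where
  C : Scheme.{0}
  π : C ⟶ Spec (.of B)
  proper : IsProper π
  Dk : κ → C.Opens
  aff : ∀ k, IsAffineOpen (Dk k)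
  cover : iSup Dk = ⊤
  Y : ∀ k, κ → Γ(C, Dk k)
  self : ∀ k, Y k k = 1
  surj : ∀ k, Function.Surjective (MvPolynomial.eval₂Hom (alg π (Dk k)) (Y k))
  ker : ∀ k p, MvPolynomial.eval₂Hom (alg π (Dk k)) (Y k) p = 0 ↔
    p ∈ Ideal.span (insert (MvPolynomial.X k - 1) E)
  inter : ∀ k l, Dk k ⊓ Dk l = C.basicOpen (Y k l)
  trans : ∀ k l m, res (inf_le_left : Dk k ⊓ Dk l ≤ _) (Y k l) * res inf_le_right (Y l m) =
    res inf_le_left (Y k m)

variable {B : Type} [CommRing B] {κ : Type} {E : Set (MvPolynomial κ B)}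

/-- On `O` the morphism `c` is given by homogeneous coordinates `y`. -/
def Atlas.Rep (𝒜 : Atlas B κ E) {T : Scheme.{0}} (c : T ⟶ 𝒜.C) (O : T.Opens)
    (y : κ → Γ(T, O)) : Prop :=
  ∀ k, ∃ h : T.basicOpen (y k) = O ⊓ c ⁻¹ᵁ 𝒜.Dk k, ∀ l,
    pl c (h.le.trans inf_le_right) (𝒜.Y k l) * res (T.basicOpen_le _) (y k) =
      res (T.basicOpen_le _) (y l)

/-- Proportional vectors. -/
def Cross {R : Type} [CommRing R] (y y' : κ → R) : Prop := ∀ k l, y k * y' l = y l * y' k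

/-- The coordinates have no common zero. -/
def Unimod {T : Scheme.{0}} {O : T.Opens} (y : κ → Γ(T, O)) : Prop :=
  O ≤ ⨆ k, T.basicOpen (y k)

variable {D : ℕ}

/-- The vector `(Z_1, T y)` attached to `(Z_1, y)`. -/
def vv {R : Type} [CommRing R] (M : Matrix (Fin D) (Fin (D + 1)) R)
    (y : Option (Fin (D + 1)) → R) : Fin (D + 1) → R :=
  Fin.cons (y none) (M.mulVec fun a => y (some a))

/-- The coordinate ring of the space of matrices. -/
abbrev BB (D : ℕ) : Type := MvPolynomial (Var D 0) ℂ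

/-- The matrix attached to a ring map out of `BB D`. -/
noncomputable def mat {R : Type} [CommRing R] (φ : BB D →+* R) : Matrix (Fin D) (Fin (D + 1)) R :=
  pencil fun v => φ (MvPolynomial.X v)

open MvPolynomial in
/-- The `2 × 2` minors of `(y, (Z_1, T y))`. -/
def Eqs (D : ℕ) : Set (MvPolynomial (Option (Fin (D + 1))) (BB D)) :=
  {e | ∃ a b, e = X (some a) * vv (mat (C : BB D →+* _)) X b -
    X (some b) * vv (mat (C : BB D →+* _)) X a}

/-- The action of the group on homogeneous coordinates. -/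
def actv {R : Type} [CommRing R] (g : Matrix (Fin (D + 1)) (Fin (D + 1)) R)
    (M : Matrix (Fin D) (Fin (D + 1)) R) (y : Option (Fin (D + 1)) → R) :
    Option (Fin (D + 1)) → R
  | none => g.mulVec (vv M y) 0
  | some a => g.mulVec (fun b => y (some b)) a

/-- The three marked points, over `z = 0, 1, ∞`. -/
def SecCond {R : Type} [CommRing R] (M : Matrix (Fin D) (Fin (D + 1)) R)
    (y : Option (Fin (D + 1)) → R) : Fin 3 → Prop :=
  ![vv M y = 0, vv M y = fun a => y (some a), (fun a => y (some a)) = 0]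

/-- The universal family over the locus `Tails`, with the group action. -/
structure Univ (𝒜 : Atlas (BB D) (Option (Fin (D + 1))) (Eqs D)) where
  X : Scheme.{0}
  ι : X ⟶ Spec (.of (BB D))
  oi : IsOpenImmersion ι
  range : Set.range ι = Tails ℂ D 0
  F : Fam X
  κ : F.C ⟶ 𝒜.C
  pb_sq : IsPullback κ F.π 𝒜.π ι
  a : ∀ {T : Scheme.{0}}, (T ⟶ F.C) → Matrix (Fin (D + 1)) (Fin (D + 1)) Γ(T, ⊤) → (T ⟶ F.C)
  action : IsAction ι F a
  rep : ∀ {T : Scheme.{0}} (c : T ⟶ F.C) g (O : T.Opens) y, Fix g → 𝒜.Rep (c ≫ κ) O y →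
    𝒜.Rep (a c g ≫ κ) O (actv (g.map (res le_top)) (mat (alg (c ≫ κ ≫ 𝒜.π) O)) y)
  sec : ∀ i, ∃ y, 𝒜.Rep (F.σ i ≫ κ) ⊤ y ∧ SecCond (mat (pb ι)) y i

end Atlas

end Pool.Agent.MP_52bf41_ag.H12
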