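import Pool.Agent.MP_52bf41_ag.H12.Spec

/-! The group action on cartesian maps, and the open locus of matrices. -/

open AlgebraicGeometry CategoryTheory Limits IsLocalRing Matrix

namespace Pool.Agent.MP_52bf41_ag.H12

open H1

variable {D : ℕ}

section FixLemmas

variable {R R' : Type} [CommRing R] [CommRing R']

theorem Fix.inP {g : Sq D R} (h : Fix g) : InP g g⁻¹ := ⟨mul_nonsing_inv _ h.1, h.2⟩

theorem fix_of_inP {g g' : Sq D R} (h : InP g g') : Fix g :=
  ⟨(isUnit_iff_isUnit_det g).mp (IsUnit.of_mul_eq_one _ h.1), h.2⟩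

theorem Fix.one : Fix (1 : Sq D R) := fix_of_inP InP.one

theorem Fix.inv {g : Sq D R} (h : Fix g) : Fix g⁻¹ := fix_of_inP h.inP.symm

theorem Fix.mul {g g' : Sq D R} (h : Fix g) (h' : Fix g') : Fix (g * g') :=
  fix_of_inP (h.inP.mul h'.inP)

theorem Fix.map {g : Sq D R} (h : Fix g) (φ : R →+* R') : Fix (g.map φ) :=
  fix_of_inP (h.inP.map φ)

theorem Fix.inv_map {g : Sq D R} (h : Fix g) (φ : R →+* R') : (g.map φ)⁻¹ = g⁻¹.map φ :=
  inv_eq_right_inv (h.inP.map φ).1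

theorem Fix.inv_mul {g : Sq D R} (h : Fix g) : g⁻¹ * g = 1 := nonsing_inv_mul _ h.1

theorem Fix.mul_inv {g : Sq D R} (h : Fix g) : g * g⁻¹ = 1 := mul_nonsing_inv _ h.1

theorem mat_comp (φ : BB D →+* R) (ψ : R →+* R') : mat (ψ.comp φ) = (mat φ).map ψ := rfl

theorem bb_ext {φ φ' : BB D →+* R} (h1 : φ.comp MvPolynomial.C = φ'.comp MvPolynomial.C)
    (h2 : mat φ = mat φ') : φ = φ' := by
  refine MvPolynomial.ringHom_ext' h1 ?_
  rintro ⟨i | i, j⟩
  · exact congrFun (congrFun h2 i) j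
  · exact i.elim0

theorem vv_map (ψ : R →+* R') (M : Matrix (Fin D) (Fin (D + 1)) R) (y : Option (Fin (D + 1)) → R) :
    vv (M.map ψ) (fun k => ψ (y k)) = fun a => ψ (vv M y a) := by
  funext a
  refine Fin.cases rfl (fun i => ?_) a
  simp [vv, mulVec, dotProduct]

theorem SecCond.map (ψ : R →+* R') {M : Matrix (Fin D) (Fin (D + 1)) R}
    {y : Option (Fin (D + 1)) → R} {i : Fin 3} (h : SecCond M y i) :
    SecCond (M.map ψ) (fun k => ψ (y k)) i := by
  fin_cases i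
  · change vv M y = 0 at h
    change vv _ _ = 0
    rw [vv_map, h]
    funext a
    simp
  · change vv M y = _ at h
    change vv _ _ = _
    rw [vv_map, h]
  · change (fun a => y (some a)) = 0 at h
    change (fun a => ψ (y (some a))) = 0
    funext a
    simpa using congrArg ψ (congrFun h a)

end FixLemmas

theorem eqs_homogeneous : ∀ e ∈ Eqs D, e.IsHomogeneous 2 := by
  have h : ∀ b, (vv (mat (MvPolynomial.C : BB D →+* MvPolynomial (Option (Fin (D + 1))) (BB D)))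
      MvPolynomial.X b).IsHomogeneous 1 := by
    intro b
    refine Fin.cases (MvPolynomial.isHomogeneous_X _ _) (fun i => ?_) b
    simp only [vv, Fin.cons_succ, mulVec, dotProduct]
    exact MvPolynomial.IsHomogeneous.sum _ _ _ fun a _ =>
      (MvPolynomial.isHomogeneous_C _ _).mul (MvPolynomial.isHomogeneous_X _ _)
  rintro e ⟨a, b, rfl⟩
  exact ((MvPolynomial.isHomogeneous_X _ _).mul (h b)).sub
    ((MvPolynomial.isHomogeneous_X _ _).mul (h a))

theorem mem_tails_iff_eig {K : Type} [Field K] [IsAlgClosed K] (ψ : BB D →+* K)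
    (p : PrimeSpectrum (BB D)) (hp : p.asIdeal = RingHom.ker ψ) :
    p ∈ Tails ℂ D 0 ↔ Eig (mat ψ) := by
  rw [mem_tails_iff, hp, ← MvPolynomial.ker_map, RingHom.mem_ker]
  have h1 : ∀ c : Fin D → K, MvPolynomial.eval c (MvPolynomial.map ψ
      (phi ((pencil MvPolynomial.X).map MvPolynomial.C) MvPolynomial.X)) = phi (mat ψ) c := by
    intro c
    rw [phi_map, phi_map, Matrix.map_map, Matrix.map_map]
    congr 1
    · ext i j
      simp [pencil, mat]
    · simp
  constructor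
  · intro h
    by_contra h2
    refine h (MvPolynomial.funext fun c => ?_)
    rw [h1, map_zero]
    by_contra h3
    exact h2 (eig_of_phi h3)
  · intro h h0
    obtain ⟨c, hc⟩ := h.exists_phi
    exact hc (by rw [← h1, h0, map_zero])

theorem closedPoint_mem_tails_iff {A : Type} [CommRing A] [IsLocalRing A]
    [IsAlgClosed (ResidueField A)] (φ : BB D →+* A) :
    PrimeSpectrum.comap φ (closedPoint A) ∈ Tails ℂ D 0 ↔ Eig ((mat φ).map (residue A)) := by
  rw [← mat_comp]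
  refine mem_tails_iff_eig _ _ ?_
  rw [← RingHom.comap_ker, ker_residue]
  rfl

theorem eig_nf {K : Type} [Field K] {q t : Fin D → K} (hq : Good q) : Eig (nf q t) := by
  classical
  refine ⟨q, fun j => Fin.cons 0 (Pi.single j 1), fun i l h => ?_, fun j => ?_, fun j i => ?_, ?_⟩
  · by_contra hne
    exact (hq.1 i l hne).ne_zero (sub_eq_zero.mpr h)
  · exact ⟨(hq.2 j).1.ne_zero, sub_ne_zero.mp (hq.2 j).2.ne_zero⟩
  · simp only [Fin.cons_succ, nf, mulVec, dotProduct, of_apply, Fin.sum_univ_succ, Fin.cons_zero,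
      mul_zero, zero_add, ite_mul, zero_mul, Finset.sum_ite_eq', Finset.mem_univ, if_true]
    by_cases h : i = j
    · rw [h]
    · simp [Pi.single_eq_of_ne h]
  · simp only [Fin.tail_cons]
    exact Pi.linearIndependent_single_one _ _

theorem Good.map {A A' : Type} [CommRing A] [CommRing A'] {q : Fin D → A} (h : Good q)
    (φ : A →+* A') : Good fun i => φ (q i) :=
  ⟨fun i l hil => by simpa using (h.1 i l hil).map φ,
    fun i => ⟨(h.2 i).1.map φ, by simpa using (h.2 i).2.map φ⟩⟩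

theorem nf_map {A A' : Type} [CommRing A] [CommRing A'] (q t : Fin D → A) (φ : A →+* A') :
    (nf q t).map φ = nf (fun i => φ (q i)) fun i => φ (t i) := by
  ext i j
  refine Fin.cases rfl (fun l => ?_) j
  simp only [nf, map_apply, of_apply, Fin.cons_succ]
  split_ifs <;> simp

theorem exists_specMap {A B : Type} [CommRing A] [CommRing B] (p : Spec (.of A) ⟶ Spec (.of B)) :
    ∃ φ : B →+* A, p = Spec.map (CommRingCat.ofHom φ) :=
  ⟨(Spec.preimage p).hom, by simp⟩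

theorem pb_specMap {A B : Type} [CommRing A] [CommRing B] (φ : B →+* A) :
    pb (Spec.map (CommRingCat.ofHom φ)) = (pb (𝟙 _)).comp φ := by
  ext b
  rw [RingHom.comp_apply, ← pb_spec, Category.id_comp]

section Action

variable {X : Scheme.{0}} {ι : X ⟶ Spec (.of (BB D))} [Mono ι] {F : Fam X}
  {a : ∀ {T : Scheme.{0}}, (T ⟶ F.C) → Sq D Γ(T, ⊤) → (T ⟶ F.C)} (ha : IsAction ι F a)

include ha

theorem IsAction.base_congr {T : Scheme.{0}} {c c' : T ⟶ F.C} (h : c ≫ F.π = c' ≫ F.π)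
    {g : Sq D Γ(T, ⊤)} (hg : Fix g) : a c g ≫ F.π = a c' g ≫ F.π := by
  rw [← cancel_mono ι]
  apply hom_ext_pb
  rw [Category.assoc, Category.assoc, ha.base c g hg, ha.base c' g hg, reassoc_of% h]

omit [Mono ι] in
theorem IsAction.natA {A : Type} [CommRing A] {T' T : Scheme.{0}} (h : T' ⟶ T)
    (p : T ⟶ Spec (.of A)) (c : T ⟶ F.C) {g : Sq D A} (hg : Fix g) :
    a (h ≫ c) (g.map (pb (h ≫ p))) = h ≫ a c (g.map (pb p)) := by
  rw [← ha.nat h c _ (hg.map _), Matrix.map_map]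
  congr 2

omit [Mono ι] in
theorem IsAction.mulA {A : Type} [CommRing A] {T : Scheme.{0}} (φ : A →+* Γ(T, ⊤))
    (c : T ⟶ F.C) {g g' : Sq D A} (hg : Fix g) (hg' : Fix g') :
    a (a c (g.map φ)) (g'.map φ) = a c ((g' * g).map φ) := by
  rw [ha.mul c _ _ (hg.map _) (hg'.map _), Matrix.map_mul]

omit [Mono ι] in
theorem IsAction.oneA {A : Type} [CommRing A] {T : Scheme.{0}} (φ : A →+* Γ(T, ⊤))
    (c : T ⟶ F.C) : a c ((1 : Sq D A).map φ) = c := by
  rw [Matrix.map_one _ (map_zero φ) (map_one φ), ha.one]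

omit [Mono ι] in
theorem IsAction.cancelA {A : Type} [CommRing A] {T : Scheme.{0}} (φ : A →+* Γ(T, ⊤))
    (c : T ⟶ F.C) {g : Sq D A} (hg : Fix g) : a (a c (g.map φ)) (g⁻¹.map φ) = c := by
  rw [ha.mulA φ c hg hg.inv, hg.inv_mul, ha.oneA]

omit [Mono ι] in
theorem IsAction.cancelA' {A : Type} [CommRing A] {T : Scheme.{0}} (φ : A →+* Γ(T, ⊤))
    (c : T ⟶ F.C) {g : Sq D A} (hg : Fix g) : a (a c (g⁻¹.map φ)) (g.map φ) = c := by
  rw [ha.mulA φ c hg.inv hg, hg.mul_inv, ha.oneA]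

/-- Moving a cartesian map by a group element. -/
theorem IsAction.cart {A : Type} [CommRing A] {F' : Fam (Spec (.of A))} {f : F'.C ⟶ F.C}
    {x : Spec (.of A) ⟶ X} (h : Cart F' F f x) {φ : BB D →+* A}
    (hφ : x ≫ ι = Spec.map (CommRingCat.ofHom φ)) {g : Sq D A} (hg : Fix g) :
    ∃ (x' : Spec (.of A) ⟶ X) (φ' : BB D →+* A), Cart F' F (a f (g.map (pb F'.π))) x' ∧
      x' ≫ ι = Spec.map (CommRingCat.ofHom φ') ∧
      φ'.comp MvPolynomial.C = φ.comp MvPolynomial.C ∧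
      mat φ' = g.submatrix Fin.succ Fin.succ * mat φ * g⁻¹ := by
  let x' := a (x ≫ F.σ 2) (g.map (pb (𝟙 _))) ≫ F.π
  have hx' : ∀ {T : Scheme.{0}} (b : T ⟶ Spec (.of A)) (c : T ⟶ F.C), c ≫ F.π = b ≫ x →
      a c (g.map (pb b)) ≫ F.π = b ≫ x' := by
    intro T b c hc
    have h1 := ha.natA b (𝟙 _) (x ≫ F.σ 2) hg
    rw [Category.comp_id] at h1
    rw [← Category.assoc, ← h1]
    exact ha.base_congr (by simp [hc, F.sec]) (hg.map _)
  refine ⟨x', MvPolynomial.eval₂Hom (φ.comp MvPolynomial.C)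
    (act g g⁻¹ fun v => φ (MvPolynomial.X v)), ⟨?_, fun i => ?_⟩, ?_, ?_, ?_⟩
  · refine IsPullback.of_isLimit' ⟨hx' _ _ h.1.w⟩ (PullbackCone.IsLimit.mk _
      (fun s => h.1.lift (a s.fst (g⁻¹.map (pb s.snd))) s.snd ?_) (fun s => ?_) (fun s => ?_)
      fun s m h1 h2 => ?_)
    · have h1 : s.fst ≫ F.π = a (s.snd ≫ x ≫ F.σ 2) (g.map (pb s.snd)) ≫ F.π := by
        rw [s.condition, hx' s.snd _ (by simp [F.sec])]
      rw [ha.base_congr h1 (hg.inv.map _), ha.cancelA _ _ hg]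
      simp [F.sec]
    · rw [← ha.natA _ _ _ hg, h.1.lift_fst, h.1.lift_snd, ha.cancelA' _ _ hg]
    · exact h.1.lift_snd _ _ _
    · refine h.1.hom_ext ?_ (by rw [h2, h.1.lift_snd])
      rw [h.1.lift_fst, ← h1, ← h2, ← ha.natA _ _ _ hg, ha.cancelA _ _ hg]
  · rw [← ha.natA _ _ _ hg, F'.sec, h.2, ← ha.sec x _ i (hg.map _), ← Category.assoc,
      hx' (𝟙 _) _ (by simp [F.sec]), Category.id_comp]
  · apply hom_ext_pb
    rw [Category.assoc, ha.base _ _ (hg.map _), pb_specMap]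
    have h1 : (x ≫ F.σ 2) ≫ F.π ≫ ι = Spec.map (CommRingCat.ofHom φ) := by
      rw [← hφ, Category.assoc, reassoc_of% F.sec 2]
    rw [h1, pb_specMap, MvPolynomial.comp_eval₂Hom, hg.inv_map]
    congr 1
    exact (act_map _ _ _ _).symm
  · ext r
    simp
  · refine Eq.trans ?_ (pencil_act g g⁻¹ fun v => φ (MvPolynomial.X v))
    simp [mat]

end Action

end Pool.Agent.MP_52bf41_ag.H12
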