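import Pool.Agent.MP_52bf41_ag.H12.Basic

/-! Base change of affine charts; the closed fibre over an Artinian local ring. -/

open AlgebraicGeometry CategoryTheory Limits IsLocalRing

namespace Pool.Agent.MP_52bf41_ag.H12

variable {A A' : Type} [CommRing A] [CommRing A'] {C C' : Scheme.{0}} {p : C ⟶ Spec (.of A)}
  {p' : C' ⟶ Spec (.of A')} {j : C' ⟶ C} {φ : A →+* A'}

theorem isAffineOpen_preimage (h : IsPullback j p' p (Spec.map (CommRingCat.ofHom φ)))
    {U : C.Opens} (hU : IsAffineOpen U) : IsAffineOpen (j ⁻¹ᵁ U) := by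
  have : IsAffineHom j := MorphismProperty.of_isPullback h.flip inferInstance
  exact hU.preimage j

/-- The ring of the preimage of an affine chart is the pushout. -/
theorem isPushout_preimage (h : IsPullback j p' p (Spec.map (CommRingCat.ofHom φ)))
    {U : C.Opens} (hU : IsAffineOpen U) :
    IsPushout (CommRingCat.ofHom (alg p U)) (CommRingCat.ofHom φ)
      (CommRingCat.ofHom (pl j (le_rfl : j ⁻¹ᵁ U ≤ _))) (CommRingCat.ofHom (alg p' (j ⁻¹ᵁ U))) := by
  have h1 := (isIso_pushoutSection_iff h (US := ⊤) (UT := ⊤) (UX := U) le_top le_top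
    (UY := j ⁻¹ᵁ U) (by simp)).mp
    (isIso_pushoutSection_of_isAffineOpen h le_top le_top (by simp) (isAffineOpen_top _)
      (isAffineOpen_top _) hU)
  refine h1.of_iso (Scheme.ΓSpecIso (.of A)) (Iso.refl _) (Scheme.ΓSpecIso (.of A')) (Iso.refl _)
    ?_ ?_ ?_ ?_
  · rw [← cancel_epi (Scheme.ΓSpecIso (.of A)).inv, Iso.inv_hom_id_assoc]
    rfl
  · rw [← Scheme.ΓSpecIso_naturality]
    simp [Scheme.Hom.appLE]
  · rfl
  · rw [← cancel_epi (Scheme.ΓSpecIso (.of A')).inv, Iso.inv_hom_id_assoc]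
    rfl

/-- Universal property of the pushout, existence. -/
theorem exists_lift_preimage (h : IsPullback j p' p (Spec.map (CommRingCat.ofHom φ)))
    {U : C.Opens} (hU : IsAffineOpen U) {R : Type} [CommRing R] (f : Γ(C, U) →+* R)
    (g : A' →+* R) (w : f.comp (alg p U) = g.comp φ) :
    ∃ l : Γ(C', j ⁻¹ᵁ U) →+* R, l.comp (pl j le_rfl) = f ∧ l.comp (alg p' _) = g := by
  have H := isPushout_preimage h hU
  refine ⟨(H.desc (CommRingCat.ofHom f) (CommRingCat.ofHom g) (CommRingCat.hom_ext w)).hom, ?_, ?_⟩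
  · exact congrArg CommRingCat.Hom.hom (H.inl_desc _ _ _)
  · exact congrArg CommRingCat.Hom.hom (H.inr_desc _ _ _)

/-- Universal property of the pushout, uniqueness. -/
theorem hom_ext_preimage (h : IsPullback j p' p (Spec.map (CommRingCat.ofHom φ)))
    {U : C.Opens} (hU : IsAffineOpen U) {R : Type} [CommRing R] {l l' : Γ(C', j ⁻¹ᵁ U) →+* R}
    (h1 : l.comp (pl j le_rfl) = l'.comp (pl j le_rfl))
    (h2 : l.comp (alg p' _) = l'.comp (alg p' _)) : l = l' := by
  have H := isPushout_preimage h hU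
  exact congrArg CommRingCat.Hom.hom (H.hom_ext (k := CommRingCat.ofHom l)
    (l := CommRingCat.ofHom l') (CommRingCat.hom_ext h1) (CommRingCat.hom_ext h2))

/-- Base change along a surjection: the chart ring is the quotient by the kernel. -/
theorem surj_ker_preimage (h : IsPullback j p' p (Spec.map (CommRingCat.ofHom φ)))
    (hφ : Function.Surjective φ) {U : C.Opens} (hU : IsAffineOpen U) :
    Function.Surjective (pl j (le_rfl : j ⁻¹ᵁ U ≤ _)) ∧
      ∀ b, pl j (le_rfl : j ⁻¹ᵁ U ≤ _) b = 0 ↔ b ∈ (RingHom.ker φ).map (alg p U) := by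
  let I := (RingHom.ker φ).map (alg p U)
  have hw : ∀ a, pl j (le_rfl : j ⁻¹ᵁ U ≤ _) (alg p U a) = alg p' _ (φ a) := fun a => by
    rw [pl_alg, h.w, alg_spec]
  have hI : ∀ b ∈ I, pl j (le_rfl : j ⁻¹ᵁ U ≤ _) b = 0 := by
    intro b hb
    have : I ≤ RingHom.ker (pl j (le_rfl : j ⁻¹ᵁ U ≤ _)) :=
      Ideal.map_le_iff_le_comap.mpr fun a ha => by
        rw [Ideal.mem_comap, RingHom.mem_ker, hw, (RingHom.mem_ker).mp ha, map_zero]
    exact this hb
  let g : A' →+* Γ(C, U) ⧸ I := RingHom.liftOfSurjective φ hφ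
    ⟨(Ideal.Quotient.mk I).comp (alg p U), fun a ha =>
      Ideal.Quotient.eq_zero_iff_mem.mpr (Ideal.mem_map_of_mem _ ha)⟩
  have hg : g.comp φ = (Ideal.Quotient.mk I).comp (alg p U) :=
    RingHom.liftOfSurjective_comp _ _ _
  obtain ⟨l, hl1, hl2⟩ := exists_lift_preimage h hU (Ideal.Quotient.mk I) g hg.symm
  let r : Γ(C, U) ⧸ I →+* Γ(C', j ⁻¹ᵁ U) := Ideal.Quotient.lift I _ hI
  have hr : r.comp l = RingHom.id _ := by
    refine hom_ext_preimage h hU ?_ ?_
    · rw [RingHom.comp_assoc, hl1]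
      rfl
    · rw [RingHom.comp_assoc, hl2]
      ext a
      obtain ⟨a, rfl⟩ := hφ a
      rw [RingHom.comp_apply, ← RingHom.comp_apply g, hg]
      exact hw a
  refine ⟨fun b => ?_, fun b => ⟨fun hb => ?_, hI b⟩⟩
  · obtain ⟨c, hc⟩ := Ideal.Quotient.mk_surjective (l b)
    exact ⟨c, by simpa [← hc, r] using (RingHom.congr_fun hr b)⟩
  · have := RingHom.congr_fun hl1 b
    rw [RingHom.comp_apply, hb, map_zero] at this
    exact Ideal.Quotient.eq_zero_iff_mem.mp this.symm

theorem flat_alg [Flat p] {U : C.Opens} (hU : IsAffineOpen U) : (alg p U).Flat := by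
  have h1 : (p.appLE ⊤ U le_top).hom.Flat :=
    Flat.flat_appLE p (isAffineOpen_top _) hU le_top
  exact RingHom.Flat.comp (f := (Scheme.ΓSpecIso (.of A)).inv.hom) (RingHom.Flat.of_bijective
    (Scheme.ΓSpecIso (.of A)).symm.commRingCatIsoToRingEquiv.bijective) h1

theorem finiteType_alg [LocallyOfFiniteType p] {U : C.Opens} (hU : IsAffineOpen U) :
    (alg p U).FiniteType := by
  have h1 : (p.appLE ⊤ U le_top).hom.FiniteType :=
    LocallyOfFiniteType.finiteType_appLE p (isAffineOpen_top _) hU le_top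
  exact h1.comp (RingHom.FiniteType.of_surjective _
    (Scheme.ΓSpecIso (.of A)).symm.commRingCatIsoToRingEquiv.surjective)

section Artinian

variable [IsLocalRing A] [IsArtinianRing A] {p0 : C' ⟶ Spec (.of (ResidueField A))}

theorem isNilpotent_of_mem_max {a : A} (ha : a ∈ maximalIdeal A) : IsNilpotent a := by
  obtain ⟨n, hn⟩ := IsArtinianRing.isNilpotent_jacobson_bot (R := A)
  rw [jacobson_eq_maximalIdeal ⊥ bot_ne_top] at hn
  exact ⟨n, by simpa [hn] using Ideal.pow_mem_pow ha n⟩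

theorem isNilpotent_of_not_isUnit {a : A} (ha : ¬IsUnit a) : IsNilpotent a :=
  isNilpotent_of_mem_max ha

/-- The closed fibre is homeomorphic to the total space. -/
theorem isHomeomorph_fibre
    (h : IsPullback j p0 p (Spec.map (CommRingCat.ofHom (residue A)))) : IsHomeomorph j := by
  have h1 : IsClosedImmersion (Spec.map (CommRingCat.ofHom (residue A))) :=
    IsClosedImmersion.spec_of_surjective _ residue_surjective
  have h2 : Surjective (Spec.map (CommRingCat.ofHom (residue A))) :=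
    ⟨fun x => ⟨closedPoint _, Subsingleton.elim (α := PrimeSpectrum A) _ _⟩⟩
  have h3 : IsClosedImmersion j := MorphismProperty.of_isPullback h.flip h1
  have h4 : Surjective j := MorphismProperty.of_isPullback h.flip h2
  exact isHomeomorph_iff_isEmbedding_surjective.mpr ⟨j.isClosedEmbedding.isEmbedding, j.surjective⟩

end Artinian

end Pool.Agent.MP_52bf41_ag.H12
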