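import Pool.Agent.MP_52bf41_ag.H12.Assemble
import Pool.Agent.MP_52bf41_ag.H12.Thick

/-! Classification of families over Artinian local rings from the module interfaces. -/

open AlgebraicGeometry CategoryTheory Limits IsLocalRing

namespace Pool.Agent.MP_52bf41_ag.H12

section Transport

variable {α β : Type} [TopologicalSpace α] [TopologicalSpace β]

theorem image_mem_components (e : α ≃ₜ β) {Z : Set α} (h : Z ∈ irreducibleComponents α) :
    e '' Z ∈ irreducibleComponents β := by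
  refine ⟨h.1.image _ e.continuous.continuousOn, fun W hW hle => ?_⟩
  have h1 : Z ⊆ e.symm '' W := fun z hz => ⟨e z, hle ⟨z, hz, rfl⟩, e.symm_apply_apply z⟩
  have h2 := h.2 (hW.image _ e.symm.continuous.continuousOn) h1
  exact fun w hw => ⟨e.symm w, h2 ⟨w, hw, rfl⟩, e.apply_symm_apply w⟩

/-- Transport of a skeleton along a homeomorphism. -/
def Skel.map {m : Fin 3 → α} {D : ℕ} (K : Skel α m D) (e : α ≃ₜ β) {m' : Fin 3 → β}
    (hm : ∀ l, e (m l) = m' l) : Skel β m' D where
  M := e '' K.M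
  T i := e '' K.T i
  tail := K.tail
  d i := e (K.d i)
  ξ i := e (K.ξ i)
  dim1 Z h1 h2 := by
    rcases K.dim1 (e.symm '' Z) (h1.image _ e.symm.continuous.continuousOn)
      (e.symm.isClosedMap _ h2) with h | ⟨y, h⟩
    · left
      simpa [Set.image_image] using image_mem_components e h
    · exact Or.inr ⟨e y, by simpa [Set.image_image] using congrArg (e '' ·) h⟩
  irrM := K.irrM.image _ e.continuous.continuousOn
  clM := e.isClosedMap _ K.clM
  mM l := ⟨_, K.mM l, hm l⟩
  comps Z hZ := by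
    rcases K.comps _ (image_mem_components e.symm hZ) with h | ⟨i, hi, h⟩
    · exact Or.inl (by simp [← h, Set.image_image])
    · exact Or.inr ⟨i, hi, by simp [← h, Set.image_image]⟩
  irrT i hi := (K.irrT i hi).image _ e.continuous.continuousOn
  clT i hi := e.isClosedMap _ (K.clT i hi)
  dT i hi := ⟨_, K.dT i hi, rfl⟩
  ξT i hi := ⟨_, K.ξT i hi, rfl⟩
  dM i hi := fun ⟨y, hy, h⟩ => K.dM i hi (e.injective h ▸ hy)
  mT i hi := fun ⟨y, hy, h⟩ => K.mT i hi (e.injective (h.trans (hm 2).symm) ▸ hy)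
  nt i hi := by rw [K.nt i hi]
  ξM i := ⟨_, K.ξM i, rfl⟩
  ξinj := e.injective.comp K.ξinj
  dinj := e.injective.comp K.dinj
  minj i l h := K.minj (e.injective (by rw [hm, hm, h]))
  ξm i l h := K.ξm i l (e.injective (h.trans (hm l).symm))
  cld i := by simpa using e.isClosedMap _ (K.cld i)
  clξ i := by simpa using e.isClosedMap _ (K.clξ i)
  clm l := by simpa [hm] using e.isClosedMap _ (K.clm l)

theorem Skel.dm {m : Fin 3 → α} {D : ℕ} (K : Skel α m D) (i : Fin D) (l : Fin 3) : K.d i ≠ m l := by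
  by_cases h : K.tail i
  · exact fun e => K.dM i h (e ▸ K.mM l)
  · exact K.nt i h ▸ K.ξm i l

end Transport

variable {A : Type} [CommRing A] {C : Scheme.{0}} {p : C ⟶ Spec (.of A)}

theorem H1Zero.two (h : H1Zero C) {U V : C.Opens} (hc : U ⊔ V = ⊤) (c : Γ(C, U ⊓ V)) :
    ∃ (a : Γ(C, U)) (b : Γ(C, V)), c = res inf_le_left a - res inf_le_right b := by
  obtain ⟨b, hb⟩ := h Bool (fun i => Bool.rec U V i) (by rw [iSup_bool_eq, sup_comm]; exact hc)
    (fun i j => match i, j with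
      | false, false => 0
      | false, true => c
      | true, false => -res (le_of_eq (inf_comm V U)) c
      | true, true => 0) (by rintro (_ | _) (_ | _) (_ | _) <;> simp)
  exact ⟨b false, b true, hb false true⟩

theorem Par.exists_eq {x : C} {U : C.Opens} {s : Γ(C, U)} (h : Par p x U s) (b : Γ(C, U)) :
    ∃ c e, b = alg p U c + s * e := by
  obtain ⟨c, hc⟩ := h.bij.2 (Ideal.Quotient.mk _ b)
  obtain ⟨e, he⟩ := Ideal.mem_span_singleton.mp (Ideal.Quotient.eq.mp hc.symm)
  exact ⟨c, e, by rw [← he]; ring⟩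

theorem Par.not_mem {x : C} {U : C.Opens} {s : Γ(C, U)} (h : Par p x U s) : x ∉ C.basicOpen s :=
  fun hx => ((h.zero x).mp hx).2 rfl

theorem mem_basicOpen_of_add {U : C.Opens} {b b' : Γ(C, U)} {x : C} (hx : x ∈ C.basicOpen b)
    (h' : x ∉ C.basicOpen b') : x ∈ C.basicOpen (b + b') := by
  by_contra h
  have := not_mem_basicOpen_add h (not_mem_basicOpen_mul (-1) h')
  simp only [neg_mul, one_mul, add_neg_cancel_right] at this
  exact this hx

theorem exists_poles {ι : Type} [Finite ι] (h1 : H1Zero C) (x : ι → C)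
    (hx : Function.Injective x) (hc : ∀ a, IsClosed {x a})
    (Q : ι → ∀ U : C.Opens, Γ(C, U) → Prop)
    (hp : ∀ a (N : C.Opens), x a ∈ N → ∃ U ≤ N, ∃ s, Par p (x a) U s ∧ Q a U s) :
    ∃ P : Poles p ι, P.x = x ∧ ∀ a, Q a (P.U a) (P.s a) := by
  let V : ι → C.Opens := fun a => ⟨{x a}ᶜ, (hc a).isOpen_compl⟩
  let N : Set ι → C.Opens := fun I => ⟨(⋃ b ∈ I, {x b})ᶜ,
    ((Set.toFinite I).isClosed_biUnion fun b _ => hc b).isOpen_compl⟩
  have hN : ∀ I y, y ∈ N I ↔ ∀ b ∈ I, y ≠ x b := fun I y => by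
    simp [N, ← SetLike.mem_coe]
  choose U hU s par hQ using fun a => hp a (N {b | b ≠ a})
    ((hN _ _).mpr fun b hb e => hb (hx e).symm)
  have hu : ∀ a, IsUnit (res (inf_le_left : U a ⊓ V a ≤ _) (s a)) := fun a =>
    isUnit_of_le_basicOpen _ _ fun y hy => ((par a).zero y).mpr hy
  choose e b hb using fun a => h1.two (U := U a) (V := V a) (eq_top_iff.mpr fun y _ => by
    by_cases h : y = x a
    · exact Or.inl (h ▸ (par a).mem)
    · exact Or.inr h) ↑(hu a).unit⁻¹
  refine ⟨⟨x, U, s, par, fun a b hab h => (hN _ _).mp (hU a h) b hab.symm rfl, V,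
    fun a y => Iff.rfl, fun a => -b a, fun a => 1 + -e a * s a, fun a => ?_, fun a => ?_,
    N Set.univ, fun y => by simp [hN]⟩, rfl, hQ⟩
  · have := (hu a).val_inv_mul
    rw [hb a] at this
    simp only [map_neg, map_add, map_one, map_mul]
    linear_combination this
  · refine mem_basicOpen_of_add ?_ (not_mem_basicOpen_mul _ (par a).not_mem)
    rw [basicOpen_of_isUnit isUnit_one]
    exact (par a).mem

namespace Poles

variable {ι : Type}

/-- Keep only some of the poles. -/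
def restrict (P : Poles p ι) (I : Set ι) (hc : IsClosed (P.x '' I)) : Poles p I where
  x a := P.x a
  U a := P.U a
  s a := P.s a
  par a := P.par a
  ne a b h := P.ne a b fun e => h (Subtype.ext e)
  V a := P.V a
  hV a := P.hV a
  u a := P.u a
  v a := P.v a
  pole a := P.pole a
  unit a := P.unit a
  O0 := ⟨(P.x '' I)ᶜ, hc.isOpen_compl⟩
  hO0 y := by simp [← SetLike.mem_coe, eq_comm]

/-- Affine change of the functions. -/
noncomputable def rescale (P : Poles p ι) (l c : ι → A) (hl : ∀ a, IsUnit (l a)) : Poles p ι :=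
  { P with
    u := fun a => alg p _ (l a) * P.u a + alg p _ (c a)
    v := fun a => alg p _ (l a) * P.v a + alg p _ (c a) * P.s a
    pole := fun a => by
      simp only [map_add, map_mul, res_alg]
      linear_combination alg p _ (l a) * P.pole a
    unit := fun a => by
      refine mem_basicOpen_of_add (mem_basicOpen_mul.mpr ⟨?_, P.unit a⟩)
        (not_mem_basicOpen_mul _ (P.par a).not_mem)
      rw [basicOpen_of_isUnit ((hl a).map _)]
      exact (P.par a).mem }

theorem isClosed_x (P : Poles p ι) (a : ι) : IsClosed {P.x a} := by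
  have : ({P.x a} : Set C) = (P.V a : Set C)ᶜ := by
    ext y
    simp [P.hV]
  rw [this]
  exact (P.V a).isOpen.isClosed_compl

theorem pole0 (P : Poles p ι) (a : ι) :
    res (inf_le_left : P.U a ⊓ P.O0 ≤ _) (P.s a) * res inf_le_right (P.u0 a) =
      res inf_le_left (P.v a) := by
  have := congrArg (res (inf_le_inf_left _ (P.O0_le a))) (P.pole a)
  simpa [u0, mul_comm] using this

variable [IsLocalRing A] [IsArtinianRing A]

theorem affine (hA : SAff) [IsProper p] [Finite ι] (P : Poles p ι) (h1 : Dim1 C)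
    (h2 : ∀ Z ∈ irreducibleComponents C, ∃ a, P.x a ∈ Z) : IsAffineOpen P.O0 := by
  refine hA A C p P.O0 ι P.u0 h1 (fun Z hZ => ?_) fun y hy => ?_
  · obtain ⟨a, ha⟩ := h2 Z hZ
    exact ⟨_, ha, fun h => (P.hO0 _).mp h a rfl⟩
  · obtain ⟨a, rfl⟩ : ∃ a, y = P.x a := by simpa [P.hO0] using hy
    exact ⟨a, P.U a, P.s a, P.v a, (P.par a).not_mem, P.unit a, P.pole0 a⟩

end Poles

theorem exists_sep {O : C.Opens} (hO : IsAffineOpen O) {y y' : C} (hy : y ∈ O) (hy' : y' ∈ O)
    (hc : IsClosed {y}) (hne : y' ≠ y) : ∃ b : Γ(C, O), y ∉ C.basicOpen b ∧ y' ∈ C.basicOpen b := by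
  obtain ⟨b, hb, hb'⟩ := hO.exists_basicOpen_le (V := ⟨{y}ᶜ, hc.isOpen_compl⟩) ⟨y', hne⟩ hy'
  exact ⟨b, fun h => hb h rfl, hb'⟩

variable [IsLocalRing A] [IsArtinianRing A]

theorem not_mem_alg {U : C.Opens} {c : A} (hc : ¬IsUnit c) (y : C) :
    y ∉ C.basicOpen (alg p U c) := by
  rw [basicOpen_of_isNilpotent ((isNilpotent_of_not_isUnit hc).map _)]
  exact fun h => h

omit [IsLocalRing A] [IsArtinianRing A] in
theorem not_isUnit_of_not_mem {U : C.Opens} {c : A} {y : C} (hy : y ∈ U)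
    (h : y ∉ C.basicOpen (alg p U c)) : ¬IsUnit c := fun hc => by
  rw [basicOpen_of_isUnit (hc.map _)] at h
  exact h hy

/-- If `b` has the values `c` and `c'` at one point, and the value `c` at another one. -/
theorem value_trans {U : C.Opens} {b : Γ(C, U)} {c c' : A} {y y' : C} (hy : y ∈ U)
    (h1 : y ∉ C.basicOpen (b - alg p U c)) (h2 : y ∉ C.basicOpen (b - alg p U c'))
    (h3 : y' ∉ C.basicOpen (b - alg p U c)) : y' ∉ C.basicOpen (b - alg p U c') := by
  have h4 : ¬IsUnit (c - c') := by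
    refine not_isUnit_of_not_mem (p := p) hy ?_
    have := not_mem_basicOpen_add h2 (not_mem_basicOpen_mul (-1) h1)
    convert this using 3
    rw [map_sub]
    ring
  have := not_mem_basicOpen_add h3 (not_mem_alg (p := p) (U := U) h4 y')
  convert this using 3
  rw [map_sub]
  ring

omit [IsLocalRing A] [IsArtinianRing A] in
theorem comb_sub_dvd {B ι : Type} [CommRing B] [Fintype ι] (φ : A →+* B) (u : ι → B) (c : A)
    (P : ι → Polynomial A) (r : ι → A) :
    comb φ u c P - φ (c + ∑ a, r a * (P a).eval (r a)) ∈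
      Ideal.span (Set.range fun a => u a - φ (r a)) := by
  rw [← Ideal.Quotient.eq]
  have h : ∀ a, Ideal.Quotient.mk (Ideal.span (Set.range fun a => u a - φ (r a))) (u a) =
      Ideal.Quotient.mk _ (φ (r a)) := fun a => Ideal.Quotient.eq.mpr (Ideal.subset_span ⟨a, rfl⟩)
  simp only [comb, map_add, map_sum, map_mul, Polynomial.hom_eval₂, h]
  congr 1
  refine Finset.sum_congr rfl fun a _ => ?_
  rw [← RingHom.comp_apply _ φ (r a), Polynomial.eval₂_at_apply]
  rfl

omit [IsLocalRing A] [IsArtinianRing A] in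
theorem not_mem_of_mem_span {U : C.Opens} {S : Set Γ(C, U)} {y : C}
    (h : ∀ b ∈ S, y ∉ C.basicOpen b) {b : Γ(C, U)} (hb : b ∈ Ideal.span S) :
    y ∉ C.basicOpen b := by
  induction hb using Submodule.span_induction with
  | mem b hb => exact h b hb
  | zero => simp
  | add b b' _ _ h1 h2 => exact not_mem_basicOpen_add h1 h2
  | smul r b _ h1 => exact not_mem_basicOpen_mul r h1

/-- Closed points of the affine part are separated by the values of the functions. -/
theorem Poles.sep (hS : SSpanP) {ι : Type} [Fintype ι] [Nonempty ι] (P : Poles p ι)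
    (h0 : Function.Surjective (pb p)) (hO : IsAffineOpen P.O0) {y y' : C} (hy : y ∈ P.O0)
    (hy' : y' ∈ P.O0) (hc : IsClosed {y}) (r : ι → A)
    (h1 : ∀ a, y ∉ C.basicOpen (P.u a - alg p _ (r a)))
    (h2 : ∀ a, y' ∉ C.basicOpen (P.u a - alg p _ (r a))) : y' = y := by
  by_contra hne
  obtain ⟨b, hb, hb'⟩ := exists_sep hO hy hy' hc hne
  obtain ⟨c, Q, rfl⟩ := (hS A C p ι P h0).2.1 b
  have h3 : ∀ z ∈ P.O0, (∀ a, z ∉ C.basicOpen (P.u a - alg p _ (r a))) →
      z ∉ C.basicOpen (comb (alg p P.O0) P.u0 c Q - alg p _ (c + ∑ a, r a * (Q a).eval (r a))) := by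
    intro z hz h
    refine not_mem_of_mem_span ?_ (comb_sub_dvd _ _ c Q r)
    rintro _ ⟨a, rfl⟩ hz'
    refine h a ((mem_basicOpen_res (P.O0_le a) _ hz).mp ?_)
    simpa [Poles.u0] using hz'
  have := value_trans (c' := 0) hy (h3 y hy h1) (by simpa using hb) (h3 y' hy' h2)
  exact this (by simpa using hb')

omit [IsArtinianRing A] in
theorem not_mem_ev (τ : Spec (.of A) ⟶ C) (hτ : τ ≫ p = 𝟙 _) {O : C.Opens} (h : ⊤ ≤ τ ⁻¹ᵁ O)
    (b : Γ(C, O)) : τ (closedPoint A) ∉ C.basicOpen (b - alg p O (ev τ h b)) := by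
  rw [← isUnit_ev_iff τ h, map_sub, ev_alg τ hτ, sub_self]
  exact not_isUnit_zero

section Main

variable [IsAlgClosed (ResidueField A)] {D : ℕ} {m : Fin 3 → C} (K : Skel C m D) [IsProper p]
  (P : Poles p (Option (Fin D))) (hx0 : P.x none = m 2) (hx : ∀ i, P.x (some i) = K.d i)
  (hw : ∀ i, m 2 ∉ C.basicOpen (P.u (some i)))

include hx hw in
theorem vanish_main (hC : SConst) (i : Fin D) (hi : K.tail i) {y : C} (hy : y ∈ K.M) :
    y ∉ C.basicOpen (P.u (some i)) := by
  have hM : K.M ⊆ P.V (some i) := fun z hz => (P.hV _ z).mpr fun e => K.dM i hi (hx i ▸ e ▸ hz)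
  obtain ⟨c, hc⟩ := hC A C p _ (P.u (some i)) K.M K.irrM.isPreirreducible.isPreconnected K.clM hM
  simpa using value_trans (c' := 0) (hM (K.mM 2)) (hc _ (K.mM 2)) (by simpa using hw i) (hc y hy)

include hx0 hx hw in
theorem sep_main (hA : SAff) (hC : SConst) (hS : SSpanP) (h0 : Function.Surjective (pb p))
    {y y' : C} (hy : y ∈ K.M) (hy' : y' ∈ K.M) (hc : IsClosed {y}) (h2 : y ≠ m 2) (h2' : y' ≠ m 2)
    (hne : y' ≠ y) {c c' : A} (h : y ∉ C.basicOpen (P.u none - alg p _ c))
    (h' : y' ∉ C.basicOpen (P.u none - alg p _ c')) : IsUnit (c - c') := by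
  classical
  by_contra hu
  let I : Set (Option (Fin D)) := {a | ∀ i, a = some i → K.tail i}
  have : Nonempty I := ⟨⟨none, fun _ h => by simp at h⟩⟩
  have hcl : IsClosed (P.x '' I) := by
    rw [Set.image_eq_iUnion]
    exact (Set.toFinite I).isClosed_biUnion fun a _ => P.isClosed_x a
  have hO : IsAffineOpen (P.restrict I hcl).O0 := by
    refine Poles.affine hA _ K.dim1 fun Z hZ => ?_
    rcases K.comps Z hZ with rfl | ⟨i, hi, rfl⟩
    · exact ⟨⟨none, fun _ h => by simp at h⟩, by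
        change P.x none ∈ _
        exact hx0 ▸ K.mM 2⟩
    · exact ⟨⟨some i, fun l h => Option.some.inj h ▸ hi⟩, by
        change P.x (some i) ∈ _
        exact hx i ▸ K.dT i hi⟩
  have hmem : ∀ z ∈ K.M, z ≠ m 2 → z ∈ (P.restrict I hcl).O0 := by
    intro z hz hz2
    refine ((P.restrict I hcl).hO0 z).mpr ?_
    rintro ⟨_ | i, hi⟩ e
    · exact hz2 (e.trans hx0)
    · exact K.dM i (hi i rfl) (hx i ▸ (show z = P.x (some i) from e) ▸ hz)
  refine hne (Poles.sep hS (P.restrict I hcl) h0 hO (hmem y hy h2) (hmem y' hy' h2') hc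
    (fun a => a.1.elim c fun _ => 0) ?_ ?_)
  · rintro ⟨_ | i, hi⟩
    · exact h
    · change y ∉ C.basicOpen (P.u (some i) - alg p (P.V (some i)) 0)
      simpa using vanish_main K P hx hw hC i (hi i rfl) hy
  · rintro ⟨_ | i, hi⟩
    · have := not_mem_basicOpen_add h' (not_mem_basicOpen_mul (-1)
        (not_mem_alg (p := p) (U := P.V none) hu y'))
      change y' ∉ C.basicOpen (P.u none - alg p (P.V none) c)
      convert this using 3
      rw [map_sub]
      ring
    · change y' ∉ C.basicOpen (P.u (some i) - alg p (P.V (some i)) 0)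
      simpa using vanish_main K P hx hw hC i (hi i rfl) hy'

end Main

omit [IsLocalRing A] [IsArtinianRing A] in
theorem comb_mem_range {B ι : Type} [CommRing B] [Fintype ι] (φ : A →+* B) (u : ι → B) (c : A)
    (P : ι → Polynomial A) : ∃ r, MvPolynomial.eval₂Hom φ u r = comb φ u c P :=
  ⟨comb MvPolynomial.C MvPolynomial.X c P, by
    simp only [comb, map_add, map_sum, map_mul, Polynomial.hom_eval₂, MvPolynomial.eval₂Hom_X',
      MvPolynomial.eval₂Hom_C, MvPolynomial.eval₂Hom_comp_C]⟩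

/-- From normalized pole data to a standard atlas. -/
theorem std_of_poles (hA : SAff) (hC : SConst) (hS : SSpanP) (hPr : SPresOf) (hF : SFin)
    [IsAlgClosed (ResidueField A)] {D : ℕ} {F : Fam (Spec (.of A))} [IsProper F.π]
    (K : Skel F.C (fun l => F.σ l (closedPoint A)) D) (h0 : Function.Surjective (pb F.π))
    (P : Poles F.π (Option (Fin D))) (hx0 : P.x none = F.σ 2 (closedPoint A))
    (hx : ∀ i, P.x (some i) = K.d i) (k0 : ⊤ ≤ F.σ 0 ⁻¹ᵁ P.O0) (k1 : ⊤ ≤ F.σ 1 ⁻¹ᵁ P.O0)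
    (k2 : ⊤ ≤ F.σ 2 ⁻¹ᵁ P.U none) (e0 : ev (F.σ 0) k0 (P.u0 none) = 0)
    (e1 : ev (F.σ 1) k1 (P.u0 none) = 1) (e2 : ev (F.σ 2) k2 (P.s none) = 0)
    (ew : ∀ i, ev (F.σ 2) k2 (res (P.U_le (Option.some_ne_none i).symm) (P.u (some i))) = 0) :
    ∃ q t : Fin D → A, Good q ∧ Nonempty (Std F q t) := by
  classical
  have hw : ∀ i, F.σ 2 (closedPoint A) ∉ F.C.basicOpen (P.u (some i)) := fun i h => by
    have h1 := (mem_basicOpen_res (P.U_le (Option.some_ne_none i).symm) _
      (hx0 ▸ (P.par none).mem)).mpr h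
    rw [← isUnit_ev_iff _ k2, ew] at h1
    exact not_isUnit_zero h1
  choose q e hq using fun i => (P.par (some i)).exists_eq
    (res (P.U_le (Option.some_ne_none i)) (P.u none))
  have hd : ∀ i, P.x (some i) ∉ F.C.basicOpen (P.u none - alg F.π _ (q i)) := fun i h => by
    have h1 := (mem_basicOpen_res (P.U_le (Option.some_ne_none i)) _ (P.par (some i)).mem).mpr h
    rw [map_sub, hq, res_alg, add_sub_cancel_left, mul_comm] at h1
    exact not_mem_basicOpen_mul _ (P.par (some i)).not_mem h1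
  have hξ : ∀ i, K.ξ i ∉ F.C.basicOpen (P.u none - alg F.π _ (q i)) := fun i => by
    by_cases hi : K.tail i
    · have hT : K.T i ⊆ P.V none := fun z hz => (P.hV _ z).mpr fun e => K.mT i hi (hx0 ▸ e ▸ hz)
      obtain ⟨c, hc⟩ := hC A _ F.π _ (P.u none) (K.T i)
        (K.irrT i hi).isPreirreducible.isPreconnected (K.clT i hi) hT
      exact value_trans (hT (K.dT i hi)) (hc _ (K.dT i hi)) (hx i ▸ hd i) (hc _ (K.ξT i hi))
    · rw [K.nt i hi, ← hx]
      exact hd i
  have hm : ∀ (l : Fin 3) (k : ⊤ ≤ F.σ l ⁻¹ᵁ P.O0), F.σ l (closedPoint A) ∉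
      F.C.basicOpen (P.u none - alg F.π _ (ev (F.σ l) k (P.u0 none))) := fun l k h => by
    refine not_mem_ev (F.σ l) (F.sec l) k (P.u0 none) ?_
    simpa [Poles.u0] using (mem_basicOpen_res (P.O0_le none) _ (k (Set.mem_univ _))).mpr h
  have sep := fun {y y' : F.C} hy hy' hc h2 h2' hne {c c' : A} h h' =>
    sep_main K P hx0 hx hw hA hC hS h0 (y := y) (y' := y') hy hy' hc h2 h2' hne (c := c) (c' := c')
      h h'
  have hG : Good q := by
    refine ⟨fun i l hil => sep (K.ξM i) (K.ξM l) (K.clξ i) (K.ξm i 2) (K.ξm l 2)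
      (fun e => hil (K.ξinj e).symm) (hξ i) (hξ l), fun i => ⟨?_, ?_⟩⟩
    · have := sep (K.ξM i) (K.mM 0) (K.clξ i) (K.ξm i 2) (fun e => by simpa using K.minj e)
        (K.ξm i 0).symm (hξ i) (hm 0 k0)
      rwa [e0, sub_zero] at this
    · exact sep (K.ξM i) (K.mM 1) (K.clξ i) (K.ξm i 2) (fun e => by simpa using K.minj e)
        (K.ξm i 1).symm (hξ i) (e1 ▸ hm 1 k1)
  obtain ⟨g0, g1, g2⟩ := hS A _ F.π _ P h0
  have hrel : ∀ i, ∃ t, (P.u0 none - alg F.π _ (q i)) * P.u0 (some i) = alg F.π _ t := by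
    intro i
    refine g0 _ fun a => ?_
    have hu : ∀ {a b} (h : a ≠ b), res (inf_le_right : P.U a ⊓ P.O0 ≤ _) (P.u0 b) =
        res inf_le_left (res (P.U_le h) (P.u b)) := fun h => by simp [Poles.u0]
    rcases a with _ | l
    · obtain ⟨c, e', he⟩ := (P.par none).exists_eq
        (res (P.U_le (Option.some_ne_none i).symm) (P.u (some i)))
      have hc : c = 0 := by
        have := ew i
        rwa [he, map_add, map_mul, e2, ev_alg _ (F.sec 2), zero_mul, add_zero] at this
      refine ⟨P.v none * e' - alg F.π _ (q i) * (P.s none * e'), ?_⟩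
      rw [map_mul (res inf_le_right), hu (Option.some_ne_none i).symm, he, hc]
      simp only [map_sub, map_mul, map_zero, zero_add, res_alg]
      linear_combination -res inf_le_left e' * P.pole0 none
    · by_cases hl : l = i
      · subst hl
        refine ⟨e l * P.v (some l), ?_⟩
        rw [map_mul (res inf_le_right), map_sub, hu (Option.some_ne_none l), hq]
        simp only [map_add, map_mul, res_alg]
        linear_combination -res inf_le_left (e l) * P.pole0 (some l)
      · refine ⟨(res (P.U_le (Option.some_ne_none l)) (P.u none) - alg F.π _ (q i)) *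
          res (P.U_le (a := some l) (b := some i) (by simpa using hl)) (P.u (some i)), ?_⟩
        rw [map_mul (res inf_le_right), map_sub (res inf_le_right), hu (Option.some_ne_none l),
          hu (a := some l) (b := some i) (by simpa using hl)]
        simp only [map_sub, map_mul, res_alg]
  choose t ht using hrel
  have hO : IsAffineOpen P.O0 := by
    refine Poles.affine hA _ K.dim1 fun Z hZ => ?_
    rcases K.comps Z hZ with rfl | ⟨i, hi, rfl⟩
    · exact ⟨none, hx0 ▸ K.mM 2⟩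
    · exact ⟨some i, hx i ▸ K.dT i hi⟩
  have hP : Pres (alg F.π P.O0) P.u0 q t := by
    refine hPr A _ D _ _ q t hG (fun b => ?_) ht g2
    obtain ⟨c, Q, rfl⟩ := g1 b
    exact comb_mem_range _ _ c Q
  refine ⟨q, t, hG, hF A D F q t P k0 k1 k2 hG K.dim1 hO hP e0 e1 e2
    (fun i => hx0 ▸ hw i) hd fun a Z hZ => ?_⟩
  have out : ∀ b, P.x b ∉ F.C.basicOpen (P.u0 a) := fun b h =>
    (P.hO0 _).mp (F.C.basicOpen_le _ h) b rfl
  rcases K.comps Z hZ with rfl | ⟨i, hi, rfl⟩
  · rcases a with _ | l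
    · refine ⟨_, K.mM 0, fun e => by simpa using K.minj (e.trans hx0), fun h => ?_⟩
      rw [← isUnit_ev_iff _ k0, e0] at h
      exact not_isUnit_zero h
    · exact ⟨_, K.mM 2, (hx l ▸ K.dm l 2).symm, hx0 ▸ out none⟩
  · by_cases ha : a = some i
    · subst ha
      refine ⟨_, K.ξT i hi, fun e => K.dM i hi (hx i ▸ e ▸ K.ξM i), fun h => ?_⟩
      refine vanish_main K P hx hw hC i hi (K.ξM i) ?_
      exact (mem_basicOpen_res _ _ (F.C.basicOpen_le _ h)).mp h
    · refine ⟨_, K.dT i hi, fun e => P.ne a (some i) ha ?_, hx i ▸ out (some i)⟩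
      rw [hx, e]
      exact (P.par a).mem

theorem classify (hK : SSkel) (hH : SH0) (hD : SDev) (hL : SLP) (hPS : SParSec) (hA : SAff)
    (hC : SConst) (hS : SSpanP) (hPr : SPresOf) (hF : SFin) : SClassify := by
  intro A _ _ _ _ D F ⟨h1, h2, h3, h4⟩
  obtain ⟨F0, j, hc⟩ : ∃ F0 j, Cart F0 F j (Spec.map (CommRingCat.ofHom (residue A))) :=
    ⟨_, _, F.cart_pull _⟩
  have hp : IsProper F0.π := MorphismProperty.of_isPullback hc.1 h2
  obtain ⟨hP, hT⟩ := h4 (ResidueField A) _ _ _ hc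
  obtain ⟨K0, hK0⟩ := hK _ D _ hP hT
  have hm : ∀ l, j (F0.σ l (closedPoint (ResidueField A))) = F.σ l (closedPoint A) := fun l => by
    refine (Scheme.Hom.comp_apply _ _ _).symm.trans ?_
    rw [hc.2]
    exact (Scheme.Hom.comp_apply _ _ _).trans
      (congrArg _ (Subsingleton.elim (α := PrimeSpectrum A) _ _))
  let K : Skel F.C (fun l => F.σ l (closedPoint A)) D :=
    K0.map (isHomeomorph_fibre hc.1).homeomorph hm
  obtain ⟨d1, d2⟩ := hD A F _ _ hc
  have h0 := d2 (hH _ _ hP)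
  obtain ⟨P, hx, hQ⟩ := exists_poles (p := F.π) (d1 hP.2.1)
    (fun a : Option (Fin D) => a.elim (F.σ 2 (closedPoint A)) K.d) (by
      rintro (_ | i) (_ | l) h
      · rfl
      · exact absurd h.symm (K.dm l 2)
      · exact absurd h (K.dm i 2)
      · exact congrArg _ (K.dinj h)) (by
      rintro (_ | i)
      · exact K.clm 2
      · exact K.cld i)
    (fun a U s => a = none → ∃ h : ⊤ ≤ F.σ 2 ⁻¹ᵁ U, ev (F.σ 2) h s = 0) (by
      rintro (_ | i) N hN
      · obtain ⟨U, hU, s, hs⟩ := hL A F _ _ hc _ (hP.2.2.2.1 2 (closedPoint _)) N (hm 2 ▸ hN)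
        replace hs := hm 2 ▸ hs
        obtain ⟨s', hs', he⟩ := hPS A _ F.π U s (F.σ 2) (top_le_preimage _ hs.mem) (F.sec 2) hs
        exact ⟨U, hU, s', hs', fun _ => ⟨_, he⟩⟩
      · obtain ⟨U, hU, s, hs⟩ := hL A F _ _ hc _ (hK0 i) N hN
        exact ⟨U, hU, s, hs, fun h => by simp at h⟩)
  obtain ⟨k2, e2⟩ := hQ none rfl
  have hx0 : P.x none = F.σ 2 (closedPoint A) := congrFun hx none
  have hxi : ∀ i, P.x (some i) = K.d i := fun i => congrFun hx (some i)
  have k : ∀ l : Fin 3, l ≠ 2 → ⊤ ≤ F.σ l ⁻¹ᵁ P.O0 := fun l hl =>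
    top_le_preimage _ ((P.hO0 _).mpr (by
      rintro (_ | i)
      · exact fun e => hl (K.minj (e.trans hx0))
      · exact (hxi i ▸ K.dm i l).symm))
  have k0 := k 0 (by decide)
  have k1 := k 1 (by decide)
  let w : Fin D → A := fun i =>
    ev (F.σ 2) k2 (res (P.U_le (Option.some_ne_none i).symm) (P.u (some i)))
  let P1 := P.rescale (fun _ => 1) (fun a => a.elim 0 fun i => -w i) fun _ => isUnit_one
  have ew1 : ∀ i, ev (F.σ 2) k2 (res (P.U_le (Option.some_ne_none i).symm) (P1.u (some i))) = 0 :=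
    fun i => by
      change ev _ _ (res _ (alg F.π _ 1 * P.u (some i) + alg F.π _ (-w i))) = 0
      rw [map_one, one_mul, map_add, map_add, res_alg, ev_alg _ (F.sec 2), add_neg_cancel]
  have hw1 : ∀ i, F.σ 2 (closedPoint A) ∉ F.C.basicOpen (P1.u (some i)) := fun i h => by
    have h1 := (mem_basicOpen_res (P.U_le (Option.some_ne_none i).symm) _
      (hx0 ▸ (P.par none).mem)).mpr h
    rw [← isUnit_ev_iff _ k2, ew1] at h1
    exact not_isUnit_zero h1
  have hm' : ∀ (l : Fin 3) (k : ⊤ ≤ F.σ l ⁻¹ᵁ P1.O0), F.σ l (closedPoint A) ∉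
      F.C.basicOpen (P1.u none - alg F.π _ (ev (F.σ l) k (P1.u0 none))) := fun l k h => by
    refine not_mem_ev (F.σ l) (F.sec l) k (P1.u0 none) ?_
    simpa [Poles.u0] using (mem_basicOpen_res (P1.O0_le none) _ (k (Set.mem_univ _))).mpr h
  obtain ⟨r, hr⟩ := sep_main K P1 hx0 hxi hw1 hA hC hS h0 (K.mM 1) (K.mM 0) (K.clm 1)
    (fun e => by simpa using K.minj e) (fun e => by simpa using K.minj e)
    (fun e => by simpa using K.minj e) (hm' 1 k1) (hm' 0 k0)
  let P2 := P1.rescale (fun a => a.elim ↑r⁻¹ fun _ => 1)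
    (fun a => a.elim (-(↑r⁻¹ * ev (F.σ 0) k0 (P1.u0 none))) fun _ => 0) (by
      rintro (_ | i)
      · exact r⁻¹.isUnit
      · exact isUnit_one)
  have hev : ∀ (l : Fin 3) (k : ⊤ ≤ F.σ l ⁻¹ᵁ P1.O0), ev (F.σ l) k (P2.u0 none) =
      ↑r⁻¹ * (ev (F.σ l) k (P1.u0 none) - ev (F.σ 0) k0 (P1.u0 none)) := fun l k => by
    change ev _ _ (res (P1.O0_le none) (alg F.π _ ↑r⁻¹ * P1.u none +
      alg F.π _ (-(↑r⁻¹ * ev (F.σ 0) k0 (P1.u0 none))))) = _
    rw [map_add, map_mul, res_alg, res_alg, map_add, map_mul, ev_alg _ (F.sec l),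
      ev_alg _ (F.sec l), mul_sub, sub_eq_add_neg]
    rfl
  refine std_of_poles hA hC hS hPr hF K h0 P2 hx0 hxi k0 k1 k2 ?_ ?_ e2 fun i => ?_
  · exact (hev 0 k0).trans ((congrArg _ (sub_self _)).trans (mul_zero _))
  · exact (hev 1 k1).trans ((congrArg _ hr.symm).trans r.inv_mul)
  · have : P2.u (some i) = P1.u (some i) := by
      change alg F.π (P1.V (some i)) 1 * P1.u (some i) + alg F.π (P1.V (some i)) 0 = _
      rw [map_one, one_mul, map_zero, add_zero]
    exact (congrArg _ (congrArg _ this)).trans (ew1 i)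

end Pool.Agent.MP_52bf41_ag.H12
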