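import Pool.Agent.MP_52bf41_ag.H1.Defs

/-! Prestable genus-zero pointed curves and their families, as Mathlib schemes, and what it means
that a quotient `[X/G]` presents the locus of curves with rational tails. -/

open AlgebraicGeometry CategoryTheory Limits

namespace Pool.Agent.MP_52bf41_ag.H12

open H1

/-- A scheme over `T` with three sections. -/
structure Fam (T : Scheme.{0}) where
  C : Scheme.{0}
  π : C ⟶ T
  σ : Fin 3 → (T ⟶ C)
  sec : ∀ i, σ i ≫ π = 𝟙 T

/-- `(f, s)` is a cartesian map of pointed families. -/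
def Cart {T' T : Scheme.{0}} (F' : Fam T') (F : Fam T) (f : F'.C ⟶ F.C) (s : T' ⟶ T) : Prop :=
  IsPullback f F'.π F.π s ∧ ∀ i, F'.σ i ≫ f = s ≫ F.σ i

/-- `x` is a closed point whose completed local ring is isomorphic to `R`. -/
def LocType (R : Type) [CommRing R] (C : Scheme.{0}) (x : C) : Prop :=
  IsClosed {x} ∧ Nonempty
    (AdicCompletion (IsLocalRing.maximalIdeal (C.presheaf.stalk x)) (C.presheaf.stalk x) ≃+* R)

/-- The completed local ring `k[[x,y]]/(xy)` of a node. -/
abbrev NodeRing (k : Type) [Field k] : Type :=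
  MvPowerSeries (Fin 2) k ⧸
    Ideal.span {(MvPowerSeries.X 0 * MvPowerSeries.X 1 : MvPowerSeries (Fin 2) k)}

/-- Restriction of a function to a smaller open set. -/
noncomputable def res {C : Scheme.{0}} {U V : C.Opens} (h : V ≤ U) : Γ(C, U) →+* Γ(C, V) :=
  (C.presheaf.map (homOfLE h).op).hom

/-- Cech `H^1(C, O_C) = 0`: every 1-cocycle on every open cover is a coboundary. -/
def H1Zero (C : Scheme.{0}) : Prop :=
  ∀ (ι : Type) (U : ι → C.Opens), iSup U = ⊤ → ∀ c : ∀ i j, Γ(C, U i ⊓ U j),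
    (∀ i j l, res (V := U i ⊓ U j ⊓ U l) (le_inf (inf_le_left.trans inf_le_left) inf_le_right) (c i l)
      = res inf_le_left (c i j)
        + res (le_inf (inf_le_left.trans inf_le_right) inf_le_right) (c j l)) →
    ∃ b : ∀ i, Γ(C, U i), ∀ i j, c i j = res inf_le_left (b i) - res inf_le_right (b j)

/-- A prestable 3-pointed curve of genus zero over an algebraically closed field (properness is
part of `IsFamily`). -/
def Prestable (k : Type) [Field k] (F : Fam (Spec (.of k))) : Prop :=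
  ConnectedSpace F.C ∧ H1Zero F.C ∧
  (∀ x : F.C, IsClosed {x} → LocType (PowerSeries k) F.C x ∨ LocType (NodeRing k) F.C x) ∧
  (∀ i p, LocType (PowerSeries k) F.C (F.σ i p)) ∧ ∀ i j p, F.σ i p = F.σ j p → i = j

/-- At most `D` nodes, one component carries all markings, every other component carries exactly
one node. -/
def TailType (D : ℕ) (k : Type) [Field k] (F : Fam (Spec (.of k))) : Prop :=
  {x | LocType (NodeRing k) F.C x}.encard ≤ D ∧
  ∃ M ∈ irreducibleComponents F.C, (∀ i p, F.σ i p ∈ M) ∧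
    ∀ Z ∈ irreducibleComponents F.C, Z ≠ M → ∃! x, x ∈ Z ∧ LocType (NodeRing k) F.C x

/-- `F` is a family of prestable curves all of whose geometric fibres satisfy `TailType D`. -/
def IsFamily (D : ℕ) {T : Scheme.{0}} (F : Fam T) : Prop :=
  Flat F.π ∧ IsProper F.π ∧ LocallyOfFinitePresentation F.π ∧
  ∀ (k : Type) [Field k] [IsAlgClosed k] (F' : Fam (Spec (.of k))) f s,
    Cart F' F f s → Prestable k F' ∧ TailType D k F'

/-- The ring map attached to a morphism to an affine scheme. -/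
noncomputable def pb {A : Type} [CommRing A] {T : Scheme.{0}} (x : T ⟶ Spec (.of A)) :
    A →+* Γ(T, ⊤) :=
  x.appTop.hom.comp (Scheme.ΓSpecIso (.of A)).inv.hom

/-- Invertible matrices fixing the first basis vector. -/
def Fix {D : ℕ} {R : Type} [CommRing R] (g : Matrix (Fin (D + 1)) (Fin (D + 1)) R) : Prop :=
  IsUnit g.det ∧ ∀ i, g i 0 = (1 : Matrix (Fin (D + 1)) (Fin (D + 1)) R) i 0

variable {D : ℕ} {X : Scheme.{0}} (ι : X ⟶ Spec (.of (MvPolynomial (Var D 0) ℂ))) (F : Fam X)

/-- `a` is an action of the group scheme `Fix` on the family `F`, given on `T`-points, which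
covers `act` on the base and respects the sections. -/
structure IsAction (a : ∀ {T : Scheme.{0}},
    (T ⟶ F.C) → Matrix (Fin (D + 1)) (Fin (D + 1)) Γ(T, ⊤) → (T ⟶ F.C)) : Prop where
  nat : ∀ {T' T : Scheme.{0}} (h : T' ⟶ T) (c : T ⟶ F.C) g, Fix g →
    a (h ≫ c) (g.map h.appTop.hom) = h ≫ a c g
  one : ∀ {T : Scheme.{0}} (c : T ⟶ F.C), a c 1 = c
  mul : ∀ {T : Scheme.{0}} (c : T ⟶ F.C) g g', Fix g → Fix g' → a (a c g) g' = a c (g' * g)
  base : ∀ {T : Scheme.{0}} (c : T ⟶ F.C) g, Fix g → pb (a c g ≫ F.π ≫ ι) =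
    MvPolynomial.eval₂Hom ((pb (c ≫ F.π ≫ ι)).comp MvPolynomial.C)
      (act g g⁻¹ fun v => pb (c ≫ F.π ≫ ι) (MvPolynomial.X v))
  sec : ∀ {T : Scheme.{0}} (x : T ⟶ X) g i, Fix g →
    a (x ≫ F.σ i) g ≫ F.π ≫ F.σ i = a (x ≫ F.σ i) g

/-- A cartesian map to the family over `X` which is a morphism over `ℂ`. -/
def Classifies {A : Type} [CommRing A] [Algebra ℂ A] (F' : Fam (Spec (.of A)))
    (f : F'.C ⟶ F.C) : Prop :=
  ∃ x, Cart F' F f x ∧ (pb (x ≫ ι)).comp MvPolynomial.C = (pb (𝟙 _)).comp (algebraMap ℂ A)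

/-- `f'` is obtained from `f` by a unique element of `G(A)`. -/
def Differ (a : ∀ {T : Scheme.{0}},
    (T ⟶ F.C) → Matrix (Fin (D + 1)) (Fin (D + 1)) Γ(T, ⊤) → (T ⟶ F.C))
    {A : Type} [CommRing A] {T : Scheme.{0}} (p : T ⟶ Spec (.of A)) (f f' : T ⟶ F.C) : Prop :=
  ∃! g : Matrix (Fin (D + 1)) (Fin (D + 1)) A, Fix g ∧ f' = a f (g.map (pb p))

/-- `[X/G]` presents the stack of curves with at most `D` rational tails: `X` is open in the space
of matrices and carries an equivariant family such that over every finite-dimensional local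
`ℂ`-algebra `A` each family has a classifying map, and two classifying maps differ by a unique
element of `G(A)`. -/
def Presents : Prop :=
  IsOpenImmersion ι ∧ ∃ (F : Fam X) (a : ∀ {T : Scheme.{0}},
    (T ⟶ F.C) → Matrix (Fin (D + 1)) (Fin (D + 1)) Γ(T, ⊤) → (T ⟶ F.C)),
    IsFamily D F ∧ IsAction ι F a ∧
    ∀ (A : Type) [CommRing A] [Algebra ℂ A] [IsLocalRing A] [Module.Finite ℂ A]
      (F' : Fam (Spec (.of A))), (IsFamily D F' → ∃ f, Classifies ι F F' f) ∧
      ∀ f f', Classifies ι F F' f → Classifies ι F F' f' → Differ F a F'.π f f'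

/-- The dimension of the naive Chow group in codimension `d`. -/
noncomputable def chowRank {A : Type} [CommRing A] (G : Set (A →+* A))
    (U : Set (PrimeSpectrum A)) (d : ℕ) : ℕ :=
  Module.finrank ℚ ((Cyc G U d →₀ ℚ) ⧸ Submodule.span ℚ {x | IsDiv G U d x})

end Pool.Agent.MP_52bf41_ag.H12
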