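import Pool.Agent.MP_52bf41_ag.H12.Assemble
import Pool.Agent.MP_52bf41_ag.H12.Classify
import Pool.Agent.MP_52bf41_ag.H80.Alg
import Pool.Agent.MP_52bf41_ag.H19.Std
import Pool.Agent.MP_52bf41_ag.H74.Cech
import Pool.Agent.MP_52bf41_ag.H22.Iso
import Pool.Agent.MP_52bf41_ag.H4.M3
import Pool.Agent.MP_52bf41_ag.H96.Proj
import Pool.Agent.MP_52bf41_ag.H53.Univ
import Pool.Agent.MP_52bf41_ag.H31.MS
import Pool.Agent.MP_52bf41_ag.H15.NF
import Pool.Agent.MP_52bf41_ag.H71.Skel
import Pool.Agent.MP_52bf41_ag.H57.Dev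
import Pool.Agent.MP_52bf41_ag.H18.Aff
import Pool.Agent.MP_52bf41_ag.H65.Fin
import Pool.Agent.MP_52bf41_ag.H65.Span
import Pool.Agent.MP_52bf41_ag.H24.LP
import Pool.Agent.MP_52bf41_ag.H36.Pre
import Pool.Agent.MP_52bf41_ag.H1.Low

/-! Gluing the rows together. -/

open AlgebraicGeometry CategoryTheory

namespace Pool.Agent.MP_52bf41_ag.H12

open H1

theorem presents_of (hR : SRep) (hA : SCplA) (hB : SCplB) (hC : SCplC) (D : ℕ) :
    ∃ (X : Scheme.{0}) (ι : X ⟶ Spec (.of (MvPolynomial (Var D 0) ℂ))),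
      Presents ι ∧ Set.range ι = Tails ℂ D 0 :=
  presents H96.sProj hR H53.univ H31.ms H15.snf H15.sFlatD (H19.sStdFlat H80.sPresFlat)
    (H36.stdPre (H74.h1Std H19.sExt H19.sSec H74.leray) hA hB hC)
    (classify H71.skel H18.sH0 (H57.dev H74.leray) H24.lp H24.parSec H18.sAff H18.sConst H65.spanP
      H80.sPresOf (H65.fin H18.sAff H80.sLocId))
    H22.stdIso H80.sYInd H19.sDense (H4.m3 H19.sExt H19.sSec H19.sDense (H19.sPole H80.sSpan)) D

theorem comap_mem_tails {k : Type} [Field k] {D N : ℕ}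
    (p : PrimeSpectrum (MvPolynomial (Var D N) k)) :
    PrimeSpectrum.comap (MvPolynomial.rename (R := k)
      (Prod.map (Sum.map id Fin.elim0) id : Var D 0 → Var D N)).toRingHom p ∈ Tails k D 0 ↔
      p ∈ Tails k D N := by
  have h1 : p.asIdeal = RingHom.ker (Ideal.Quotient.mk p.asIdeal) := Ideal.mk_ker.symm
  have h2 : (PrimeSpectrum.comap (MvPolynomial.rename (R := k)
      (Prod.map (Sum.map id Fin.elim0) id : Var D 0 → Var D N)).toRingHom p).asIdeal =
      RingHom.ker ((Ideal.Quotient.mk p.asIdeal).comp (MvPolynomial.rename (R := k)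
      (Prod.map (Sum.map id Fin.elim0) id : Var D 0 → Var D N)).toRingHom) := by
    rw [← RingHom.comap_ker, Ideal.mk_ker]
    rfl
  rw [mem_tails_iff, mem_tails_iff, h2, ← MvPolynomial.ker_map, RingHom.mem_ker]
  conv_rhs => rw [h1, ← MvPolynomial.ker_map, RingHom.mem_ker]
  rw [phi_map, phi_map, Matrix.map_map, Matrix.map_map]
  refine not_congr (Eq.congr_left ?_)
  congr 1
  · ext i j : 2
    simp [pencil]
  · simp

theorem final_of (hR : SRep) (hA : SCplA) (hB : SCplB) (hC : SCplC) :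
    ∃ (X : ℕ → Scheme.{0}) (ι : ∀ D, X D ⟶ Spec (.of (MvPolynomial (Var D 0) ℂ))),
      (∀ D, Presents (ι D)) ∧
      ∀ d D N, d ≤ D → (d + 1) * (D + 1) ≤ N →
        chowRank (Grp ℂ D N) {p | PrimeSpectrum.comap (MvPolynomial.rename
          (Prod.map (Sum.map id Fin.elim0) id)).toRingHom p ∈ Set.range (ι D)} d =
          Fintype.card (Nat.Partition d) := by
  choose X ι h using presents_of hR hA hB hC
  refine ⟨X, ι, fun D => (h D).1, fun d D N hD hN => ?_⟩
  have : {p : PrimeSpectrum (MvPolynomial (Var D N) ℂ) | PrimeSpectrum.comap (MvPolynomial.rename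
      (Prod.map (Sum.map id Fin.elim0) id)).toRingHom p ∈ Set.range (ι D)} = Tails ℂ D N := by
    ext p
    rw [(h D).2]
    exact comap_mem_tails p
  rw [this]
  exact finrank_chow hD hN

end Pool.Agent.MP_52bf41_ag.H12
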