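import Pool.Agent.MP_52bf41_ag.H12.Basic

/-! Interfaces of the modules of the moduli identification. -/

open AlgebraicGeometry CategoryTheory Limits IsLocalRing Polynomial Matrix

namespace Pool.Agent.MP_52bf41_ag.H12

open H1

/-! ### ALG: the ring `A[z,w]/((z - q_i) w_i - t_i)` -/

def SSpan : Prop :=
  ∀ (A B : Type) [CommRing A] [CommRing B] (D : ℕ) (φ : A →+* B) (u : Option (Fin D) → B)
    (q t : Fin D → A), Good q → Function.Surjective (MvPolynomial.eval₂Hom φ u) →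
    (∀ i, (u none - φ (q i)) * u (some i) = φ (t i)) → ∀ b, ∃ c P, b = comb φ u c P

def SIndep : Prop :=
  ∀ (A B : Type) [CommRing A] [CommRing B] (D : ℕ) (φ : A →+* B) (u : Option (Fin D) → B)
    (q t : Fin D → A), Good q → Pres φ u q t → ∀ c P, comb φ u c P = 0 → c = 0 ∧ P = 0

def SPresOf : Prop :=
  ∀ (A B : Type) [CommRing A] [CommRing B] (D : ℕ) (φ : A →+* B) (u : Option (Fin D) → B)
    (q t : Fin D → A), Good q → Function.Surjective (MvPolynomial.eval₂Hom φ u) →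
    (∀ i, (u none - φ (q i)) * u (some i) = φ (t i)) →
    (∀ c P, comb φ u c P = 0 → c = 0 ∧ P = 0) → Pres φ u q t

def SPresFlat : Prop :=
  ∀ (A B : Type) [CommRing A] [CommRing B] (D : ℕ) (φ : A →+* B) (u : Option (Fin D) → B)
    (q t : Fin D → A), Good q → Pres φ u q t → φ.Flat

def SLocId : Prop :=
  ∀ (A B B' : Type) [CommRing A] [CommRing B] [CommRing B'] (D : ℕ) (φ : A →+* B)
    (u : Option (Fin D) → B) (q t : Fin D → A), Good q → Pres φ u q t →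
    ∀ (ψ : B →+* B') (a : Option (Fin D)) (s : B'),
      IsAway ψ (MvPolynomial.eval₂Hom φ u (hpol q a)) → ψ (u a) * s = 1 →
      IsAway (eval₂RingHom (ψ.comp φ) s) (X * gpol q t a)

def SYInd : Prop :=
  ∀ (A B : Type) [CommRing A] [CommRing B] (D : ℕ) (φ : A →+* B) (u : Option (Fin D) → B)
    (q t : Fin D → A), Good q → Pres φ u q t →
    (∀ r : Fin (D + 1) → A, ∑ a, φ (r a) * yv u a = 0 → r = 0) ∧
    ∀ (δ : Matrix (Fin (D + 1)) (Fin (D + 1)) A) (c : B),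
      (∀ i, δ i 0 = (1 : Matrix (Fin (D + 1)) (Fin (D + 1)) A) i 0) →
      δ.map φ *ᵥ yv u = c • yv u → δ = 1

/-! ### STD: first consequences of a standard atlas -/

def SExt : Prop :=
  ∀ (A : Type) [CommRing A] (D : ℕ) (F : Fam (Spec (.of A))) (q t : Fin D → A) (S : Std F q t),
    Good q →
    (∀ i, res (inf_le_left : S.O0 ⊓ S.O (some i) ≤ _) (S.u none) =
      res inf_le_right (alg F.π _ (q i) + alg F.π _ (t i) * S.s (some i))) ∧
    (∀ i, ∃ v, res (inf_le_left : S.O0 ⊓ S.O none ≤ _) (S.u (some i)) =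
      res inf_le_right (S.s none * v)) ∧
    ∀ i l, i ≠ l → ∃ v, res (inf_le_left : S.O0 ⊓ S.O (some l) ≤ _) (S.u (some i)) =
      res inf_le_right v

def SSec : Prop :=
  ∀ (A : Type) [CommRing A] (D : ℕ) (F : Fam (Spec (.of A))) (q t : Fin D → A) (S : Std F q t),
    Good q → ∀ a, S.s a ∈ nonZeroDivisors Γ(F.C, S.O a) ∧
      Function.Bijective ((Ideal.Quotient.mk (Ideal.span {S.s a})).comp (alg F.π (S.O a))) ∧
      ∃ (τ : Spec (.of A) ⟶ F.C) (h : ⊤ ≤ τ ⁻¹ᵁ S.O a), τ ≫ F.π = 𝟙 _ ∧ ev τ h (S.s a) = 0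

def SDense : Prop :=
  ∀ (A : Type) [CommRing A] (D : ℕ) (F : Fam (Spec (.of A))) (q t : Fin D → A) (S : Std F q t),
    Good q → DenseOpen S.O0

def SPole : Prop :=
  ∀ (A : Type) [CommRing A] (D : ℕ) (F : Fam (Spec (.of A))) (q t : Fin D → A) (S : Std F q t),
    Good q → ∀ (b : Γ(F.C, S.O0)) (n : Option (Fin D) → ℕ) (b' : ∀ a, Γ(F.C, S.O a)),
      (∀ a, res (inf_le_left : S.O0 ⊓ S.O a ≤ _) b * res inf_le_right (S.s a) ^ n a =
        res inf_le_right (b' a)) →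
      ∃ c P, b = comb (alg F.π S.O0) S.u c P ∧ (∀ a, P a ∈ degreeLT A (n a)) ∧
        (n none = 0 → c = ev (F.σ 2) S.h2 (b' none))

def SStdFlat : Prop :=
  ∀ (A : Type) [CommRing A] (D : ℕ) (F : Fam (Spec (.of A))) (q t : Fin D → A),
    Good q → Nonempty (Std F q t) → Flat F.π

/-! ### H1: Cech cohomology -/

/-- Every 1-cocycle on the family of opens `U` is a coboundary. -/
def Cob {C : Scheme.{0}} {ι : Type} (U : ι → C.Opens) : Prop :=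
  ∀ c : ∀ i j, Γ(C, U i ⊓ U j),
    (∀ i j l, res (V := U i ⊓ U j ⊓ U l) (le_inf (inf_le_left.trans inf_le_left) inf_le_right) (c i l)
      = res inf_le_left (c i j)
        + res (le_inf (inf_le_left.trans inf_le_right) inf_le_right) (c j l)) →
    ∃ b : ∀ i, Γ(C, U i), ∀ i j, c i j = res inf_le_left (b i) - res inf_le_right (b j)

theorem h1Zero_iff {C : Scheme.{0}} :
    H1Zero C ↔ ∀ (ι : Type) (U : ι → C.Opens), iSup U = ⊤ → Cob U := Iff.rfl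

def SLeray : Prop :=
  ∀ (C : Scheme.{0}) (κ : Type) (W : κ → C.Opens), (∀ k, IsAffineOpen (W k)) → iSup W = ⊤ →
    Cob W → H1Zero C

def SH1Std : Prop :=
  ∀ (A : Type) [CommRing A] (D : ℕ) (F : Fam (Spec (.of A))) (q t : Fin D → A),
    Good q → Nonempty (Std F q t) → H1Zero F.C

/-! ### CPL: completed local rings -/

def SCplA : Prop :=
  ∀ (k B O : Type) [Field k] [CommRing B] [CommRing O] [IsLocalRing O] [Algebra B O]
    (m : Ideal B) [m.IsPrime] [IsLocalization.AtPrime O m] (φ : k[X] →+* B) (g : k[X]) (c : k),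
    IsAway φ g → φ (X - C c) ∈ m →
    Nonempty (AdicCompletion (maximalIdeal O) O ≃+* PowerSeries k)

def SCplB : Prop :=
  ∀ (k B O : Type) [Field k] [CommRing B] [CommRing O] [IsLocalRing O] [Algebra B O]
    (m : Ideal B) [m.IsPrime] [IsLocalization.AtPrime O m] (D : ℕ) (φ : k →+* B)
    (u : Option (Fin D) → B) (q t : Fin D → k) (c : k), Good q → Pres φ u q t →
    u none - φ c ∈ m → (∀ l, c ≠ q l) →
    Nonempty (AdicCompletion (maximalIdeal O) O ≃+* PowerSeries k)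

def SCplC : Prop :=
  ∀ (k B O : Type) [Field k] [CommRing B] [CommRing O] [IsLocalRing O] [Algebra B O]
    (m : Ideal B) [m.IsPrime] [IsLocalization.AtPrime O m] (D : ℕ) (φ : k →+* B)
    (u : Option (Fin D) → B) (q t : Fin D → k) (i : Fin D), Good q → Pres φ u q t →
    u none - φ (q i) ∈ m → u (some i) ∈ m →
    Nonempty (AdicCompletion (maximalIdeal O) O ≃+* NodeRing k)

/-! ### PRE, ISO, M3: standard curves -/

def SStdPre : Prop :=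
  ∀ (k : Type) [Field k] [IsAlgClosed k] (D : ℕ) (F : Fam (Spec (.of k))) (q t : Fin D → k),
    Good q → Nonempty (Std F q t) → Prestable k F ∧ TailType D k F

def SStdIso : Prop :=
  ∀ (A : Type) [CommRing A] (D : ℕ) (F F' : Fam (Spec (.of A))) (q t : Fin D → A),
    Good q → Nonempty (Std F q t) → Nonempty (Std F' q t) →
    ∃ e : F.C ≅ F'.C, e.hom ≫ F'.π = F.π ∧ ∀ i, F.σ i ≫ e.hom = F'.σ i

def SM3 : Prop :=
  ∀ (A : Type) [CommRing A] [IsLocalRing A] [IsArtinianRing A] (D : ℕ) (F : Fam (Spec (.of A)))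
    (q t q' t' : Fin D → A) (S : Std F q t) (S' : Std F q' t'), Good q → Good q' →
    res (inf_le_left : S.O0 ⊓ S'.O0 ≤ _) (S.u none) = res inf_le_right (S'.u none) ∧
    ∃ γ : Matrix (Fin (D + 1)) (Fin (D + 1)) A,
      (∀ i, γ i 0 = (1 : Matrix (Fin (D + 1)) (Fin (D + 1)) A) i 0) ∧
      ∀ a, res (inf_le_left : S.O0 ⊓ S'.O0 ≤ _) ((γ.map (alg F.π S.O0) *ᵥ yv S.u) a) =
        res inf_le_left ((γ.map (alg F.π S.O0) *ᵥ yv S.u) 0) * res inf_le_right (yv S'.u a)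

/-! ### PROJ, REP, UNIV, MS: the projective model -/

def SProj : Prop :=
  ∀ (B κ : Type) [CommRing B] [Finite κ] (E : Set (MvPolynomial κ B)),
    (∀ e ∈ E, e.IsHomogeneous 2) → Nonempty (Atlas B κ E)

structure RepAPI {B κ : Type} [CommRing B] {E : Set (MvPolynomial κ B)} (𝒜 : Atlas B κ E) :
    Prop where
  self : ∀ {T : Scheme.{0}} (c : T ⟶ 𝒜.C) (k : κ),
    𝒜.Rep c (c ⁻¹ᵁ 𝒜.Dk k) fun l => pl c le_rfl (𝒜.Y k l)
  restr : ∀ {T : Scheme.{0}} {c : T ⟶ 𝒜.C} {O O' : T.Opens} {y : κ → Γ(T, O)} (e : O' ≤ O),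
    𝒜.Rep c O y → 𝒜.Rep c O' fun k => res e (y k)
  pull : ∀ {T' T : Scheme.{0}} {c : T ⟶ 𝒜.C} {O : T.Opens} {y : κ → Γ(T, O)} (h : T' ⟶ T)
    {O' : T'.Opens} (e : O' ≤ h ⁻¹ᵁ O), 𝒜.Rep c O y → 𝒜.Rep (h ≫ c) O' fun k => pl h e (y k)
  unimod : ∀ {T : Scheme.{0}} {c : T ⟶ 𝒜.C} {O : T.Opens} {y : κ → Γ(T, O)},
    𝒜.Rep c O y → Unimod y
  eqs : ∀ {T : Scheme.{0}} {c : T ⟶ 𝒜.C} {O : T.Opens} {y : κ → Γ(T, O)},
    𝒜.Rep c O y → ∀ e ∈ E, MvPolynomial.eval₂Hom (alg (c ≫ 𝒜.π) O) y e = 0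
  cross : ∀ {T : Scheme.{0}} {c : T ⟶ 𝒜.C} {O : T.Opens} {y y' : κ → Γ(T, O)},
    𝒜.Rep c O y → 𝒜.Rep c O y' → Cross y y'
  ofCross : ∀ {T : Scheme.{0}} {c : T ⟶ 𝒜.C} {O : T.Opens} {y y' : κ → Γ(T, O)},
    𝒜.Rep c O y → Unimod y' → Cross y y' → 𝒜.Rep c O y'
  crossTrans : ∀ {T : Scheme.{0}} {O : T.Opens} {y y' y'' : κ → Γ(T, O)},
    Cross y y' → Cross y' y'' → Unimod y' → Cross y y''
  ext : ∀ {T : Scheme.{0}} {c c' : T ⟶ 𝒜.C} {ι : Type} (O : ι → T.Opens)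
    (y : ∀ i, κ → Γ(T, O i)), c ≫ 𝒜.π = c' ≫ 𝒜.π → iSup O = ⊤ →
    (∀ i, 𝒜.Rep c (O i) (y i)) → (∀ i, 𝒜.Rep c' (O i) (y i)) → c = c'
  extDense : ∀ {T : Scheme.{0}} {c c' : T ⟶ 𝒜.C} {W : T.Opens} {y : κ → Γ(T, W)},
    c ≫ 𝒜.π = c' ≫ 𝒜.π → DenseOpen W → 𝒜.Rep c W y → 𝒜.Rep c' W y → c = c'
  glue : ∀ {T : Scheme.{0}} (p : T ⟶ Spec (.of B)) {ι : Type} (O : ι → T.Opens)
    (y : ∀ i, κ → Γ(T, O i)), iSup O = ⊤ → (∀ i, Unimod (y i)) →
    (∀ i, ∀ e ∈ E, MvPolynomial.eval₂Hom (alg p (O i)) (y i) e = 0) →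
    (∀ i j, Cross (fun k => res (inf_le_left : O i ⊓ O j ≤ _) (y i k))
      fun k => res inf_le_right (y j k)) →
    ∃ c : T ⟶ 𝒜.C, c ≫ 𝒜.π = p ∧ ∀ i, 𝒜.Rep c (O i) (y i)

def SRep : Prop :=
  ∀ (B κ : Type) [CommRing B] (E : Set (MvPolynomial κ B)),
    (∀ e ∈ E, e.IsHomogeneous 2) → ∀ 𝒜 : Atlas B κ E, RepAPI 𝒜

def SUniv : Prop :=
  ∀ (D : ℕ) (𝒜 : Atlas (BB D) (Option (Fin (D + 1))) (Eqs D)), RepAPI 𝒜 → Nonempty (Univ 𝒜)

def SMS : Prop :=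
  ∀ (D : ℕ) (𝒜 : Atlas (BB D) (Option (Fin (D + 1))) (Eqs D)), RepAPI 𝒜 →
    ∀ (A : Type) [CommRing A] (φ : BB D →+* A) (q t : Fin D → A) (F : Fam (Spec (.of A)))
      (c : F.C ⟶ 𝒜.C), Good q → mat φ = nf q t →
      IsPullback c F.π 𝒜.π (Spec.map (CommRingCat.ofHom φ)) →
      (∀ i, ∃ y, 𝒜.Rep (F.σ i ≫ c) ⊤ y ∧ SecCond ((nf q t).map (pb (𝟙 _))) y i) →
      ∃ S : Std F q t, 𝒜.Rep c S.O0 fun k => k.elim (S.u none) (yv S.u)

/-! ### NF, FLAT -/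

def SNF : Prop :=
  ∀ (A : Type) [CommRing A] [IsLocalRing A] [HenselianRing A (maximalIdeal A)] (D : ℕ)
    (M : Matrix (Fin D) (Fin (D + 1)) A), Eig (M.map (residue A)) →
    ∃ (g : Matrix (Fin (D + 1)) (Fin (D + 1)) A) (q t : Fin D → A), Fix g ∧ Good q ∧
      g.submatrix Fin.succ Fin.succ * M * g⁻¹ = nf q t

def SFlatD : Prop :=
  ∀ (C X : Scheme.{0}) (π : C ⟶ X) (p : X ⟶ Spec (.of ℂ)) [LocallyOfFiniteType p],
    (∀ (A : Type) [CommRing A] [IsLocalRing A] [HenselianRing A (maximalIdeal A)]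
      [IsAlgClosed (ResidueField A)] (x : Spec (.of A) ⟶ X), Flat (pullback.snd π x)) → Flat π

/-! ### SKEL, DEV, LP, AFF, SPAN, FIN: classification over Artinian rings -/

def SSkel : Prop :=
  ∀ (k : Type) [Field k] [IsAlgClosed k] (D : ℕ) (F : Fam (Spec (.of k))) [IsProper F.π],
    Prestable k F → TailType D k F →
    ∃ K : Skel F.C (fun l => F.σ l (closedPoint k)) D, ∀ i, LocType (PowerSeries k) F.C (K.d i)

def SH0 : Prop :=
  ∀ (k : Type) [Field k] [IsAlgClosed k] (F : Fam (Spec (.of k))) [IsProper F.π],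
    Prestable k F → Function.Surjective (pb F.π)

def SDev : Prop :=
  ∀ (A : Type) [CommRing A] [IsLocalRing A] [IsArtinianRing A] (F : Fam (Spec (.of A)))
    (F0 : Fam (Spec (.of (ResidueField A)))) (j : F0.C ⟶ F.C) [Flat F.π] [IsSeparated F.π],
    Cart F0 F j (Spec.map (CommRingCat.ofHom (residue A))) →
    (H1Zero F0.C → H1Zero F.C) ∧
      (Function.Surjective (pb F0.π) → Function.Surjective (pb F.π))

def SLP : Prop :=
  ∀ (A : Type) [CommRing A] [IsLocalRing A] [IsArtinianRing A] [IsAlgClosed (ResidueField A)]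
    (F : Fam (Spec (.of A))) (F0 : Fam (Spec (.of (ResidueField A)))) (j : F0.C ⟶ F.C)
    [Flat F.π] [LocallyOfFiniteType F.π],
    Cart F0 F j (Spec.map (CommRingCat.ofHom (residue A))) →
    ∀ x : F0.C, LocType (PowerSeries (ResidueField A)) F0.C x → ∀ N : F.C.Opens, j x ∈ N →
      ∃ U ≤ N, ∃ s, Par F.π (j x) U s

def SParSec : Prop :=
  ∀ (A : Type) [CommRing A] [IsLocalRing A] [IsArtinianRing A] (C : Scheme.{0})
    (p : C ⟶ Spec (.of A)) (U : C.Opens) (s : Γ(C, U)) (τ : Spec (.of A) ⟶ C)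
    (h : ⊤ ≤ τ ⁻¹ᵁ U), τ ≫ p = 𝟙 _ → Par p (τ (closedPoint A)) U s →
    ∃ s', Par p (τ (closedPoint A)) U s' ∧ ev τ h s' = 0

def SAff : Prop :=
  ∀ (A : Type) [CommRing A] [IsLocalRing A] [IsArtinianRing A] (C : Scheme.{0})
    (p : C ⟶ Spec (.of A)) [IsProper p] (O : C.Opens) (L : Type) [Finite L] (v : L → Γ(C, O)), Dim1 C →
    (∀ Z ∈ irreducibleComponents C, ∃ y ∈ Z, y ∉ O) →
    (∀ x, x ∉ O → ∃ (l : L) (U : C.Opens) (s r : Γ(C, U)), x ∉ C.basicOpen s ∧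
      x ∈ C.basicOpen r ∧
      res (inf_le_left : U ⊓ O ≤ _) s * res inf_le_right (v l) = res inf_le_left r) →
    IsAffineOpen O

def SConst : Prop :=
  ∀ (A : Type) [CommRing A] [IsLocalRing A] [IsArtinianRing A] [IsAlgClosed (ResidueField A)]
    (C : Scheme.{0}) (p : C ⟶ Spec (.of A)) [IsProper p] (V : C.Opens) (b : Γ(C, V))
    (Z : Set C), _root_.IsPreconnected Z → IsClosed Z → Z ⊆ V →
    ∃ c : A, ∀ y ∈ Z, y ∉ C.basicOpen (b - alg p V c)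

def SSpanP : Prop :=
  ∀ (A : Type) [CommRing A] [IsLocalRing A] [IsArtinianRing A] (C : Scheme.{0})
    (p : C ⟶ Spec (.of A)) (ι : Type) [Fintype ι] [Nonempty ι] (P : Poles p ι),
    Function.Surjective (pb p) →
    (∀ b : Γ(C, P.O0), (∀ a, ∃ b' : Γ(C, P.U a),
      res (inf_le_left : P.U a ⊓ P.O0 ≤ _) b' = res inf_le_right b) → ∃ c, b = alg p _ c) ∧
    (∀ b, ∃ c Q, b = comb (alg p P.O0) P.u0 c Q) ∧
    ∀ c Q, comb (alg p P.O0) P.u0 c Q = 0 → c = 0 ∧ Q = 0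

def SFin : Prop :=
  ∀ (A : Type) [CommRing A] [IsLocalRing A] [IsArtinianRing A] (D : ℕ) (F : Fam (Spec (.of A)))
    [IsProper F.π] (q t : Fin D → A) (P : Poles F.π (Option (Fin D)))
    (h0 : ⊤ ≤ F.σ 0 ⁻¹ᵁ P.O0) (h1 : ⊤ ≤ F.σ 1 ⁻¹ᵁ P.O0) (h2 : ⊤ ≤ F.σ 2 ⁻¹ᵁ P.U none),
    Good q → Dim1 F.C → IsAffineOpen P.O0 → Pres (alg F.π P.O0) P.u0 q t →
    ev (F.σ 0) h0 (P.u0 none) = 0 → ev (F.σ 1) h1 (P.u0 none) = 1 →
    ev (F.σ 2) h2 (P.s none) = 0 →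
    (∀ i, P.x none ∉ F.C.basicOpen (P.u (some i))) →
    (∀ i, P.x (some i) ∉ F.C.basicOpen (P.u none - alg F.π _ (q i))) →
    (∀ a, ∀ Z ∈ irreducibleComponents F.C, ∃ y ∈ Z, y ≠ P.x a ∧ y ∉ F.C.basicOpen (P.u0 a)) →
    Nonempty (Std F q t)

end Pool.Agent.MP_52bf41_ag.H12
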